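import Pool.Agent.R663.GB.Frob
import Pool.Agent.R663.GA.FiltaM
import Pool.Agent.R663.GA.MainE

/-!
# Orbits of irreducible traces, and fixed irreducible traces
-/

set_option autoImplicit false
set_option linter.unusedSectionVars false

open scoped Classical Pointwise

noncomputable section

namespace Pool.Agent.R663.GB

open Pool.Agent.Y63.NV
open Pool.Agent.Y77.NV (pp_reg reg_pp pp_pp pp_conj pp_coe pp_mem count)
open Pool.Agent.Y930.NV (Cf)
open Pool.Agent.Y63.NV.B77 (Irr irr_fin coef_unique coef_ex irr_conj)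
open Pool.Agent.R663.KRB
open Pool.Agent.R663.GA

variable {F : Type} [Field F] {Γ : Type} [Group Γ] [Finite Γ]
variable {G : Subgroup Γ} [hG : G.Normal] {T : Subgroup (Γ × Ex G)} {p : ℕ}

/-- `z` acts as `c` on the module with trace `φ` -/
def Ev {N : Type} [Group N] (φ z : N → F) (c : F) : Prop :=
  ∀ x : N, ∑ᶠ g : N, z g * φ (g * x) = c * φ x

section lam

variable [IsAlgClosed F] {N : Type} [Group N] [Finite N]

/-- the eigenvalue -/
def lam (z : N → F) (φ : Irr F N) : F := (schur' F N φ.1 φ.2).2.choose z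

theorem lam_block (φ : Irr F N) : IsBlock (fun z => lam z φ) :=
  (schur' F N φ.1 φ.2).2.choose_spec.1

theorem lam_spec {z : N → F} (hz : IsClassFun z) (φ : Irr F N) : Ev φ.1 z (lam z φ) :=
  fun x => (schur' F N φ.1 φ.2).2.choose_spec.2 z hz x

theorem lam_iff {z : N → F} (hz : IsClassFun z) (φ : Irr F N) (c : F) :
    Ev φ.1 z c ↔ lam z φ = c := by
  constructor
  · intro h
    obtain ⟨x, hx⟩ := (schur' F N φ.1 φ.2).1
    exact mul_right_cancel₀ hx ((lam_spec hz φ x).symm.trans (h x))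
  · rintro rfl
    exact lam_spec hz φ

end lam

/-- the exponents which are congruent to powers of `p` modulo the `p'`-part of `|G|` -/
def OK (p : ℕ) (G : Subgroup Γ) (v : Ex G) : Prop :=
  ∃ j : ℕ, (v : ZMod (Nat.card G)).val ≡ p ^ j [MOD Nat.card G / p ^ (Nat.card G).factorization p]

/-- the twisted conjugation -/
def twJ {J : Subgroup Γ} {t : Γ × Ex G} (ht : t.1 ∈ J) (x : ↥(G ⊓ J)) : ↥(G ⊓ J) :=
  ⟨tw t x, (G ⊓ J).pow_mem ((conjN ht (x : Γ)).2 x.2) _⟩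

theorem irr_tw [Fact p.Prime] [IsAlgClosed F] [CharP F p] {J : Subgroup Γ} {t : Γ × Ex G}
    (ht : t.1 ∈ J) (hv : OK p G t.2) {φ : ↥(G ⊓ J) → F} (hφ : IsIrrTrace φ) :
    IsIrrTrace (fun x => φ (twJ ht x)) := by
  obtain ⟨j, hj⟩ := hv
  have h1 : (t.2 : ZMod (Nat.card G)).val ≡ p ^ j [MOD Nat.card ↥(G ⊓ J) /
      p ^ (Nat.card ↥(G ⊓ J)).factorization p] :=
    hj.of_dvd (Nat.ordCompl_dvd_ordCompl_of_dvd (Subgroup.card_dvd_of_le inf_le_left) p)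
  have h2 := irr_pw' hφ h1
  exact Pool.Agent.Y63.NV.B77.irr_comp (cJ (G := G) ht) h2

theorem pm_tw {J : Subgroup Γ} {t : Γ × Ex G} (ht : t.1 ∈ J) [Fintype ↥(G ⊓ J)]
    {z θ : ↥(G ⊓ J) → F} (hz : Cf z) (hθ : Cf θ) (x : ↥(G ⊓ J)) :
    ∑ g, z g * θ (g * twJ ht x) = ∑ g, z (twJ ht g) * θ (twJ ht (g * x)) := by
  set k := (t.2 : ZMod (Nat.card G)).val with hk
  have h1 := pm hz hθ (ex_copJ J t.2) (cJ (G := G) ht x)
  have h2 : twJ ht x = (cJ (G := G) ht x) ^ k := Subtype.ext rfl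
  rw [h2, h1, ← Equiv.sum_comp (cJ (G := G) ht).toEquiv]
  refine Finset.sum_congr rfl fun g _ => ?_
  have e1 : ((cJ (G := G) ht).toEquiv g) ^ k = twJ ht g := Subtype.ext rfl
  have e2 : ((cJ (G := G) ht).toEquiv g * cJ (G := G) ht x) ^ k = twJ ht (g * x) := by
    show (cJ (G := G) ht g * cJ (G := G) ht x) ^ k = _
    rw [← map_mul]
    exact Subtype.ext rfl
  rw [e1, e2]

theorem ev_tw {J : Subgroup Γ} {t : Γ × Ex G} (ht : t.1 ∈ J) {z φ : ↥(G ⊓ J) → F}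
    (hz : IsClassFun z) (hzt : ∀ x, z (twJ ht x) = z x) (hφ : IsClassFun φ) {c : F}
    (h : Ev φ z c) : Ev (fun x => φ (twJ ht x)) z c := by
  have : Fintype ↥(G ⊓ J) := Fintype.ofFinite _
  intro x
  have h1 := h (twJ ht x)
  rw [finsum_eq_sum_of_fintype] at h1 ⊢
  rw [pm_tw ht hz hφ] at h1
  rw [← h1]
  refine Finset.sum_congr rfl fun g _ => ?_
  rw [hzt]

section act

variable [Fact p.Prime] [IsAlgClosed F] [CharP F p]

/-- the action on the irreducible traces -/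
@[reducible] def actI (hB : ∀ t ∈ T, OK p G t.2) (J : Subgroup Γ) :
    MulAction (TJ T J) (Irr F ↥(G ⊓ J)) where
  smul t φ := ⟨fun x => φ.1 (twJ (t := (t⁻¹).1) (t⁻¹).2.2 x),
    irr_tw (p := p) (t⁻¹).2.2 (hB _ (t⁻¹).2.1) φ.2⟩
  one_smul φ := Subtype.ext (funext fun x => by
    show φ.1 _ = φ.1 x
    refine congrArg φ.1 ?_
    apply Subtype.ext
    show tw ((1 : TJ T J)⁻¹).1 (x : Γ) = x
    rw [inv_one]
    exact tw_one x.2.1)
  mul_smul s t φ := Subtype.ext (funext fun x => by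
    show φ.1 _ = φ.1 _
    refine congrArg φ.1 ?_
    apply Subtype.ext
    show tw ((s * t)⁻¹).1 (x : Γ) = tw (t⁻¹).1 (tw (s⁻¹).1 (x : Γ))
    rw [mul_inv_rev]
    exact tw_mul _ _ x.2.1)

theorem actI_val (hB : ∀ t ∈ T, OK p G t.2) (J : Subgroup Γ) (t : TJ T J) (φ : Irr F ↥(G ⊓ J))
    (x y : ↥(G ⊓ J)) (hxy : (y : Γ) = tw t.1 x) :
    ((actI (F := F) hB J).toSMul.smul t φ).1 y = φ.1 x := by
  show φ.1 _ = φ.1 x
  refine congrArg φ.1 ?_
  apply Subtype.ext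
  show tw (t⁻¹).1 (y : Γ) = x
  rw [hxy]
  exact tw_inv_tw t.1 x.2.1

/-- the `p`-regular elements of `G ⊓ J` -/
def SP (p : ℕ) (H : Subgroup Γ) : Set Γ := {x | x ∈ H ∧ x ^ pexp p Γ = x}

theorem lam_inv (hB : ∀ t ∈ T, OK p G t.2) {J : Subgroup Γ} {z : Γ → F}
    (hT : ∀ g ∈ G, ((g, 1) : Γ × Ex G) ∈ T)
    (hz : z ∈ (VT T (G ⊓ J : Subgroup Γ) J : Submodule F (Γ → F))) (t : TJ T J)
    (φ : Irr F ↥(G ⊓ J)) :
    lam (fun x : ↥(G ⊓ J) => z x) ((actI (F := F) hB J).toSMul.smul t φ) =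
      lam (fun x : ↥(G ⊓ J) => z x) φ := by
  have hcl : IsClassFun (fun x : ↥(G ⊓ J) => z x) := fun g x =>
    VT_conj hT (fun _ h => h.1) hz g.2.1 g.2.2 x
  rw [← lam_iff hcl]
  exact ev_tw (t := (t⁻¹).1) (t⁻¹).2.2 hcl
    (fun x => hz.2 _ (t⁻¹).2.1 (t⁻¹).2.2 x x.2.1) (irr_conj φ.2) (lam_spec hcl φ)

section orb

variable (hB : ∀ t ∈ T, OK p G t.2) (J : Subgroup Γ)

/-- the orbits of irreducible traces -/
abbrev Om : Type := Quotient (@MulAction.orbitRel (TJ T J) (Irr F ↥(G ⊓ J)) _ (actI (F := F) hB J))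

/-- the class of an irreducible trace -/
def mk (φ : Irr F ↥(G ⊓ J)) : Om (F := F) hB J :=
  @Quotient.mk _ (@MulAction.orbitRel (TJ T J) (Irr F ↥(G ⊓ J)) _ (actI (F := F) hB J)) φ

theorem mk_smul (t : TJ T J) (φ : Irr F ↥(G ⊓ J)) :
    mk hB J ((actI (F := F) hB J).toSMul.smul t φ) = mk hB J φ := by
  let _ := actI (F := F) hB J
  exact Quotient.sound (MulAction.orbitRel_apply.2 ⟨t, rfl⟩)

theorem mk_eq {φ ψ : Irr F ↥(G ⊓ J)} (h : mk hB J φ = mk hB J ψ) :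
    ∃ t : TJ T J, (actI (F := F) hB J).toSMul.smul t ψ = φ := by
  let _ := actI (F := F) hB J
  exact MulAction.orbitRel_apply.1 (Quotient.exact h)

/-- the sum over an orbit -/
def vO (Q : Om (F := F) hB J) (x : ↥(G ⊓ J)) : F :=
  ∑ᶠ φ : Irr F ↥(G ⊓ J), if mk hB J φ = Q then φ.1 x else 0

/-- the sum over an orbit on the `p`-regular elements -/
def wO (Q : Om (F := F) hB J) (x : Γ) : F :=
  if h : x ∈ SP p (G ⊓ J) then vO hB J Q ⟨x, h.1⟩ else 0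

theorem fin_Om : Finite (Om (F := F) hB J) := by
  have : Finite (Irr F ↥(G ⊓ J)) := irr_fin Pool.Agent.Y914.NV.irr
  exact Quotient.finite _

theorem comb (a : Om (F := F) hB J → F) (x : ↥(G ⊓ J)) [Fintype (Irr F ↥(G ⊓ J))]
    [Fintype (Om (F := F) hB J)] :
    ∑ Q, a Q * vO hB J Q x = ∑ φ : Irr F ↥(G ⊓ J), a (mk hB J φ) * φ.1 x := by
  unfold vO
  simp only [finsum_eq_sum_of_fintype, Finset.mul_sum]
  rw [Finset.sum_comm]
  refine Finset.sum_congr rfl fun φ _ => ?_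
  rw [Finset.sum_eq_single (mk hB J φ)]
  · rw [if_pos rfl]
  · intro Q _ hQ
    rw [if_neg (Ne.symm hQ), mul_zero]
  · intro h
    exact absurd (Finset.mem_univ _) h

theorem SP_pp (x : ↥(G ⊓ J)) : ((pp p x : ↥(G ⊓ J)) : Γ) ∈ SP p (G ⊓ J) := by
  refine ⟨(pp p x : ↥(G ⊓ J)).2, ?_⟩
  rw [pp_coe]
  exact pp_pp (p := p) (x : Γ)

theorem vO_pp (Q : Om (F := F) hB J) (x : ↥(G ⊓ J)) : vO hB J Q (pp p x) = vO hB J Q x := by
  unfold vO
  refine finsum_congr fun φ => ?_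
  rw [Pool.Agent.Y705.NV.ppt p F _ φ.1 φ.2]

theorem wO_pp (Q : Om (F := F) hB J) (x : ↥(G ⊓ J)) :
    wO hB J Q ((pp p x : ↥(G ⊓ J)) : Γ) = vO hB J Q x := by
  unfold wO
  rw [dif_pos (SP_pp J x)]
  exact vO_pp hB J Q x

theorem wO_ind : LinearIndependent F (wO (F := F) hB J) := by
  have : Finite (Irr F ↥(G ⊓ J)) := irr_fin Pool.Agent.Y914.NV.irr
  have : Fintype (Irr F ↥(G ⊓ J)) := Fintype.ofFinite _
  have := fin_Om (F := F) hB J
  have : Fintype (Om (F := F) hB J) := Fintype.ofFinite _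
  rw [Fintype.linearIndependent_iff]
  intro a ha Q
  have h1 : (fun φ : Irr F ↥(G ⊓ J) => a (mk hB J φ)) = fun _ => 0 := by
    refine coef_unique Pool.Agent.Y914.NV.irr _ _ fun x => ?_
    rw [← comb]
    have h2 := congrFun ha ((pp p x : ↥(G ⊓ J)) : Γ)
    rw [Finset.sum_apply, Pi.zero_apply] at h2
    have h3 : ∑ φ : Irr F ↥(G ⊓ J), (0 : F) * φ.1 x = 0 :=
      Finset.sum_eq_zero fun φ _ => zero_mul _
    rw [h3, ← h2]
    refine Finset.sum_congr rfl fun Q _ => ?_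
    rw [Pi.smul_apply, smul_eq_mul, wO_pp]
  obtain ⟨φ, rfl⟩ := Quotient.exists_rep Q
  exact congrFun h1 φ

theorem vO_tw (Q : Om (F := F) hB J) (t : TJ T J) (x : ↥(G ⊓ J)) :
    vO hB J Q (twJ (t := t.1) t.2.2 x) = vO hB J Q x := by
  have : Finite (Irr F ↥(G ⊓ J)) := irr_fin Pool.Agent.Y914.NV.irr
  have : Fintype (Irr F ↥(G ⊓ J)) := Fintype.ofFinite _
  let _ := actI (F := F) hB J
  unfold vO
  rw [finsum_eq_sum_of_fintype, finsum_eq_sum_of_fintype,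
    ← Equiv.sum_comp (MulAction.toPerm (β := Irr F ↥(G ⊓ J)) t)]
  refine Finset.sum_congr rfl fun φ _ => ?_
  have h1 : mk hB J (MulAction.toPerm t φ) = mk hB J φ := mk_smul hB J t φ
  have h2 : (MulAction.toPerm t φ : Irr F ↥(G ⊓ J)).1 (twJ (t := t.1) t.2.2 x) = φ.1 x :=
    actI_val hB J t φ x _ rfl
  rw [h1, h2]

theorem SP_tw {t : Γ × Ex G} (hj : t.1 ∈ J) {x : Γ} (hx : x ∈ SP p (G ⊓ J)) :
    tw t x ∈ SP p (G ⊓ J) :=
  ⟨(G ⊓ J).pow_mem ((conjN hj x).2 hx.1) _, by rw [tw_pow, hx.2]⟩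

theorem wO_mem (Q : Om (F := F) hB J) :
    wO hB J Q ∈ (VT T (SP p (G ⊓ J)) J : Submodule F (Γ → F)) := by
  refine ⟨fun x hx => dif_neg hx, fun t ht hj x hx => ?_⟩
  have hiff : tw t x ∈ SP p (G ⊓ J) ↔ x ∈ SP p (G ⊓ J) :=
    tw_iff (T := T) (fun t _ hj x hx => SP_tw J hj hx) ht hj hx
  unfold wO
  by_cases h : x ∈ SP p (G ⊓ J)
  · rw [dif_pos h, dif_pos (hiff.2 h)]
    exact vO_tw hB J Q ⟨t, ht, hj⟩ ⟨x, h.1⟩
  · rw [dif_neg h, dif_neg (fun h' => h (hiff.1 h'))]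

theorem wO_span (hT : ∀ g ∈ G, ((g, 1) : Γ × Ex G) ∈ T) {θ : Γ → F}
    (hθ : θ ∈ (VT T (SP p (G ⊓ J)) J : Submodule F (Γ → F))) :
    θ ∈ Submodule.span F (Set.range (wO (F := F) hB J)) := by
  have : Finite (Irr F ↥(G ⊓ J)) := irr_fin Pool.Agent.Y914.NV.irr
  have : Fintype (Irr F ↥(G ⊓ J)) := Fintype.ofFinite _
  have := fin_Om (F := F) hB J
  have : Fintype (Om (F := F) hB J) := Fintype.ofFinite _
  have hconj : ∀ n ∈ G ⊓ J, ∀ x, θ (n * x * n⁻¹) = θ x := fun n hn x =>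
    VT_conj hT (fun _ h => h.1.1) hθ hn.1 hn.2 x
  obtain ⟨a, ha⟩ := coef_ex p span' (fun y : ↥(G ⊓ J) => θ (pp p (y : Γ))) (by
    intro g x
    change θ (pp p ((g : Γ) * x * (g : Γ)⁻¹)) = θ (pp p (x : Γ))
    rw [pp_conj, hconj g g.2]) (by
    intro x
    change θ (pp p ((pp p x : ↥(G ⊓ J)) : Γ)) = θ (pp p (x : Γ))
    rw [pp_coe, pp_pp])
  let _ := actI (F := F) hB J
  have hinv : ∀ (t : TJ T J) (φ : Irr F ↥(G ⊓ J)), a (t • φ) = a φ := by
    intro t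
    have h2 : (fun φ : Irr F ↥(G ⊓ J) => a (t • φ)) = a := by
      refine coef_unique Pool.Agent.Y914.NV.irr _ _ fun x => ?_
      rw [← ha]
      have h3 : θ (pp p (x : Γ)) = θ (pp p ((twJ (t := t.1) t.2.2 x : ↥(G ⊓ J)) : Γ)) := by
        have h4 : pp p ((twJ (t := t.1) t.2.2 x : ↥(G ⊓ J)) : Γ) = tw t.1 (pp p (x : Γ)) :=
          tw_pow t.1 (x : Γ) (pexp p Γ)
        rw [h4, hθ.2 t.1 t.2.1 t.2.2 _ (pp_mem G x.2.1)]
      show _ = θ (pp p (x : Γ))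
      rw [h3]
      have h5 := ha (twJ (t := t.1) t.2.2 x)
      rw [h5]
      symm
      rw [← Equiv.sum_comp (MulAction.toPerm (β := Irr F ↥(G ⊓ J)) t)]
      refine Finset.sum_congr rfl fun φ _ => ?_
      have h6 : (MulAction.toPerm t φ : Irr F ↥(G ⊓ J)).1 (twJ (t := t.1) t.2.2 x) = φ.1 x :=
        actI_val hB J t φ x _ rfl
      rw [h6]
      rfl
    exact fun φ => congrFun h2 φ
  let b : Om (F := F) hB J → F := Quotient.lift a (by
    intro φ ψ h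
    obtain ⟨t, ht⟩ := MulAction.orbitRel_apply.1 h
    rw [← ht]
    exact hinv t ψ)
  have hθ' : θ = ∑ Q, b Q • wO hB J Q := by
    funext x
    rw [Finset.sum_apply]
    by_cases hx : x ∈ SP p (G ⊓ J)
    · have h3 := ha ⟨x, hx.1⟩
      have h4 : pp p x = x := hx.2
      have h5 : θ x = ∑ φ : Irr F ↥(G ⊓ J), a φ * φ.1 ⟨x, hx.1⟩ := by
        rw [← h3]
        show θ x = θ (pp p x)
        rw [h4]
      have h6 := comb hB J b ⟨x, hx.1⟩
      rw [h5]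
      refine Eq.trans (Eq.trans ?_ h6.symm) ?_
      · exact Finset.sum_congr rfl fun φ _ => rfl
      · refine Finset.sum_congr rfl fun Q _ => ?_
        rw [Pi.smul_apply, smul_eq_mul]
        unfold wO
        rw [dif_pos hx]
    · rw [hθ.1 x hx]
      refine (Finset.sum_eq_zero fun Q _ => ?_).symm
      rw [Pi.smul_apply]
      unfold wO
      rw [dif_neg hx, smul_zero]
  rw [hθ']
  exact Submodule.sum_mem _ fun Q _ => Submodule.smul_mem _ _ (Submodule.subset_span ⟨Q, rfl⟩)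

end orb

/-- the number of fixed irreducible traces on which `z` acts as `c` -/
def FB (G : Subgroup Γ) (J : Subgroup Γ) (z : Γ → F) (c : F) (t : Γ × Ex G) : ℕ :=
  Nat.card {φ : ↥(G ⊓ J) → F // (IsIrrTrace φ ∧ Ev φ (fun x => z x) c) ∧
    ∀ x y : ↥(G ⊓ J), (y : Γ) = tw t x → φ y = φ x}

section burn

variable (hB : ∀ t ∈ T, OK p G t.2) {J : Subgroup Γ} (hT : ∀ g ∈ G, ((g, 1) : Γ × Ex G) ∈ T)
  {z : Γ → F} (hz : z ∈ (VT T (G ⊓ J : Subgroup Γ) J : Submodule F (Γ → F)))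

include hT in
/-- the eigenvalue of an orbit -/
def lamO (Q : Om (F := F) hB J) : F :=
  Quotient.lift (fun φ => lam (fun x : ↥(G ⊓ J) => z x) φ) (by
    intro φ ψ h
    let _ := actI (F := F) hB J
    obtain ⟨t, ht⟩ := MulAction.orbitRel_apply.1 h
    rw [← ht]
    exact lam_inv hB hT hz t ψ) Q

theorem lamO_mk (φ : Irr F ↥(G ⊓ J)) :
    lamO hB hT hz (mk hB J φ) = lam (fun x : ↥(G ⊓ J) => z x) φ := rfl

theorem gM_card (c : F) : gM T (pexp p Γ) z (SP p (G ⊓ J)) J c =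
    Nat.card {Q : Om (F := F) hB J // lamO hB hT hz Q = c} := by
  have : Finite (Irr F ↥(G ⊓ J)) := irr_fin Pool.Agent.Y914.NV.irr
  have : Fintype (Irr F ↥(G ⊓ J)) := Fintype.ofFinite _
  have := fin_Om (F := F) hB J
  have : Fintype ↥(G ⊓ J) := Fintype.ofFinite _
  have hcl : IsClassFun (fun x : ↥(G ⊓ J) => z x) := fun g x =>
    VT_conj hT (fun _ h => h.1) hz g.2.1 g.2.2 x
  refine count (KM (pexp p Γ) z (SP p (G ⊓ J))) (VT T (SP p (G ⊓ J)) J) (wO (F := F) hB J)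
    (wO_ind hB J) ?_ (lamO hB hT hz) ?_ c
  · apply le_antisymm
    · exact fun θ hθ => wO_span hB J hT hθ
    · rw [Submodule.span_le]
      rintro _ ⟨Q, rfl⟩
      exact wO_mem hB J Q
  · intro Q
    funext x
    rw [km_apply, Pi.smul_apply, smul_eq_mul]
    by_cases hx : x ∈ SP p (G ⊓ J)
    · rw [if_pos hx]
      have h1 := Kfun_sum (N := G ⊓ J) (z := z) (θ := fun y => wO hB J Q (y ^ pexp p Γ))
        (fun y hy => hz.1 y hy) x
      have h2 : ∀ g : ↥(G ⊓ J), wO hB J Q (((g : Γ) * x) ^ pexp p Γ) =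
          vO hB J Q (g * ⟨x, hx.1⟩) := by
        intro g
        rw [← wO_pp hB J Q (g * ⟨x, hx.1⟩), pp_coe]
        rfl
      have h3 : wO hB J Q x = vO hB J Q ⟨x, hx.1⟩ := by
        unfold wO
        rw [dif_pos hx]
      rw [h1, h3]
      simp only [h2]
      unfold vO
      simp only [finsum_eq_sum_of_fintype, Finset.mul_sum]
      rw [Finset.sum_comm]
      refine Finset.sum_congr rfl fun φ _ => ?_
      by_cases hφ : mk hB J φ = Q
      · simp only [if_pos hφ]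
        rw [← hφ, lamO_mk]
        have h4 := lam_spec hcl φ ⟨x, hx.1⟩
        rw [finsum_eq_sum_of_fintype] at h4
        exact h4
      · simp only [if_neg hφ, mul_zero, Finset.sum_const_zero]
    · rw [if_neg hx]
      unfold wO
      rw [dif_neg hx, mul_zero]

include hB hT hz in
theorem burnB (c : F) :
    mT T J * gM T (pexp p Γ) z (SP p (G ⊓ J)) J c = ∑ᶠ t : TJ T J, FB G J z c t.1 := by
  have : Finite (Irr F ↥(G ⊓ J)) := irr_fin Pool.Agent.Y914.NV.irr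
  have hcl : IsClassFun (fun x : ↥(G ⊓ J) => z x) := fun g x =>
    VT_conj hT (fun _ h => h.1) hz g.2.1 g.2.2 x
  have hfQ := finE G
  have : Fintype (TJ T J) := Fintype.ofFinite _
  rw [gM_card hB hT hz c, mT_eq]
  let _ := actI (F := F) hB J
  let _ : MulAction (TJ T J) {φ : Irr F ↥(G ⊓ J) // lam (fun x : ↥(G ⊓ J) => z x) φ = c} :=
    { smul := fun t φ => ⟨t • φ.1, by
        have h := lam_inv hB hT hz t φ.1
        exact h.trans φ.2⟩
      one_smul := fun φ => Subtype.ext (one_smul _ φ.1)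
      mul_smul := fun s t φ => Subtype.ext (mul_smul s t φ.1) }
  have : Fintype {φ : Irr F ↥(G ⊓ J) // lam (fun x : ↥(G ⊓ J) => z x) φ = c} :=
    Fintype.ofFinite _
  have hfq : Fintype (Quotient (MulAction.orbitRel (TJ T J)
    {φ : Irr F ↥(G ⊓ J) // lam (fun x : ↥(G ⊓ J) => z x) φ = c})) := Fintype.ofFinite _
  have h1 := MulAction.sum_card_fixedBy_eq_card_orbits_mul_card_group (TJ T J)
    {φ : Irr F ↥(G ⊓ J) // lam (fun x : ↥(G ⊓ J) => z x) φ = c}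
  have e1 : Fintype.card (Quotient (MulAction.orbitRel (TJ T J)
      {φ : Irr F ↥(G ⊓ J) // lam (fun x : ↥(G ⊓ J) => z x) φ = c})) =
      Nat.card {Q : Om (F := F) hB J // lamO hB hT hz Q = c} := by
    rw [← Nat.card_eq_fintype_card]
    let f : Quotient (MulAction.orbitRel (TJ T J)
        {φ : Irr F ↥(G ⊓ J) // lam (fun x : ↥(G ⊓ J) => z x) φ = c}) →
        {Q : Om (F := F) hB J // lamO hB hT hz Q = c} :=
      Quotient.lift (fun φ => ⟨mk hB J φ.1, φ.2⟩) (by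
        intro φ ψ h
        obtain ⟨t, ht⟩ := MulAction.orbitRel_apply.1 h
        apply Subtype.ext
        show mk hB J φ.1 = mk hB J ψ.1
        rw [← ht]
        exact mk_smul hB J t ψ.1)
    refine Nat.card_congr (Equiv.ofBijective f ⟨?_, ?_⟩)
    · intro q r
      refine Quotient.inductionOn₂ q r ?_
      intro φ ψ h
      have h2 : mk hB J φ.1 = mk hB J ψ.1 := congrArg Subtype.val h
      obtain ⟨t, ht⟩ := mk_eq hB J h2
      exact Quotient.sound (MulAction.orbitRel_apply.2 ⟨t, Subtype.ext ht⟩)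
    · rintro ⟨Q, hQ⟩
      obtain ⟨φ, rfl⟩ := Quotient.exists_rep Q
      exact ⟨Quotient.mk _ ⟨φ, hQ⟩, rfl⟩
  rw [e1] at h1
  rw [mul_comm, Nat.card_eq_fintype_card (α := TJ T J), ← h1, finsum_eq_sum_of_fintype]
  refine Finset.sum_congr rfl fun t _ => ?_
  rw [← Nat.card_eq_fintype_card]
  unfold FB
  refine Nat.card_congr
    { toFun := fun φ => ⟨φ.1.1.1, ⟨φ.1.1.2, (lam_iff hcl _ c).2 φ.1.2⟩, ?_⟩
      invFun := fun φ => ⟨⟨⟨φ.1, φ.2.1.1⟩, (lam_iff hcl ⟨φ.1, φ.2.1.1⟩ c).1 φ.2.1.2⟩, ?_⟩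
      left_inv := fun _ => rfl
      right_inv := fun _ => rfl }
  · intro x y hxy
    have h2 : t • φ.1.1 = φ.1.1 := congrArg Subtype.val φ.2
    have h3 := actI_val (F := F) hB J t φ.1.1 x y hxy
    rw [← h3]
    exact congrArg (fun ψ : Irr F ↥(G ⊓ J) => ψ.1 y) h2.symm
  · apply Subtype.ext
    show t • (⟨φ.1, φ.2.1.1⟩ : Irr F ↥(G ⊓ J)) = ⟨φ.1, φ.2.1.1⟩
    apply Subtype.ext
    funext y
    have hx : tw (t⁻¹).1 (y : Γ) ∈ G ⊓ J :=
      (G ⊓ J).pow_mem ((conjN (J := J) (show (t⁻¹).1.1 ∈ J from (t⁻¹).2.2) (y : Γ)).2 y.2) _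
    have h4 : (y : Γ) = tw t.1 (tw (t⁻¹).1 (y : Γ)) := (tw_tw_inv t.1 y.2.1).symm
    have h3 := actI_val (F := F) hB J t ⟨φ.1, φ.2.1.1⟩ ⟨tw (t⁻¹).1 (y : Γ), hx⟩ y h4
    exact h3.trans (φ.2.2 ⟨tw (t⁻¹).1 (y : Γ), hx⟩ y h4).symm

end burn

end act

end Pool.Agent.R663.GB
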