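import Pool.Agent.R663.GB.MainB
import Pool.Agent.R663.GA.EqF

/-!
# The equivariant form: sums over classes of chains
-/

set_option autoImplicit false
set_option linter.unusedSectionVars false

open scoped Classical Pointwise

noncomputable section

namespace Pool.Agent.R663.GB

open Pool.Agent.Y63.AWC (IsIrreducibleCharacter irr_comp)
open Pool.Agent.Y63.NV
open Pool.Agent.Y63.KR
open Pool.Agent.Y63.NV.B77 (Irr irr_fin irr_conj)
open Pool.Agent.R663.KRB
open Pool.Agent.R663.GA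
open Pool.Agent.R615.LV (exists_power sigma_val prim_congr pow_congr')

section defs

/-- For a subgroup `J` of `E`, a Brauer character `φ` of `G ∩ J` (the trace function, with values in
`F`, of an irreducible representation) and a power `q` of `p`: some element `a` of `J` in the coset
`Ge` satisfies `φ(a x a⁻¹) = φ(x)^q` for all `x`. If `J = E_σ` this means that the element `eG` of
`E/G`, together with the Frobenius automorphism `t ↦ t^q` of `F`, fixes the `G`-class of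
`(σ, φ)`. -/
def StableB {F : Type} [Field F] {E : Type} [Group E] (G J : Subgroup E) (e : E) (q : ℕ)
    (φ : ↥(G ⊓ J) → F) : Prop :=
  ∃ a ∈ J, a * e⁻¹ ∈ G ∧ ∀ x y : ↥(G ⊓ J), (y : E) = a * x * a⁻¹ → φ y = φ x ^ q

/-- The number of `φ ∈ IBr(G ∩ J)` with `bl(φ)^G = B` stable under `eG` and the automorphism
`t ↦ t^q`. -/
def numB {F : Type} [Field F] {E : Type} [Group E]
    (G J : Subgroup E) (B : (G → F) → F) (e : E) (q : ℕ) : ℕ :=
  Nat.card {φ : ↥(G ⊓ J) → F // IsIrrTrace φ ∧ IndB G J B φ ∧ StableB G J e q φ}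

end defs

variable {F : Type} [Field F] {Γ : Type} [Group Γ] [Finite Γ] {G : Subgroup Γ} {p : ℕ}
variable [hG : G.Normal]

/-- the trace is fixed by the twisted conjugation -/
def FixB (J : Subgroup Γ) (t : Γ × Ex G) (χ : ↥(G ⊓ J) → F) : Prop :=
  ∀ x y : ↥(G ⊓ J), (y : Γ) = tw t x → χ y = χ x

theorem FixB_left {J : Subgroup Γ} {t : Γ × Ex G} (ht : t.1 ∈ J) {a : Γ} (ha : a ∈ G ⊓ J)
    {χ : ↥(G ⊓ J) → F} (hχ : IsIrrTrace χ) :
    FixB J ((a, 1) * t) χ ↔ FixB J t χ := by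
  have hmem : ∀ x : ↥(G ⊓ J), tw t x ∈ G ⊓ J := fun x =>
    (G ⊓ J).pow_mem ((conjN ht x).2 x.2) _
  have hval : ∀ x : ↥(G ⊓ J), tw (((a, 1) : Γ × Ex G) * t) (x : Γ) =
      a * tw t (x : Γ) * a⁻¹ := by
    intro x
    rw [tw_mul _ _ x.2.1, tw_pair_one (hmem x).1]
  have hcf : IsClassFun χ := irr_conj hχ
  constructor
  · intro h x y hxy
    have h1 := h x (⟨a, ha⟩ * y * ⟨a, ha⟩⁻¹) (by rw [hval x, ← hxy]; rfl)
    rwa [hcf] at h1
  · intro h x y hxy
    have h1 := h x ⟨tw t x, hmem x⟩ rfl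
    rw [← h1, ← hcf ⟨a, ha⟩ ⟨tw t x, hmem x⟩]
    congr 1
    apply Subtype.ext
    rw [hxy, hval]
    rfl

theorem FixB_congr {J : Subgroup Γ} {t : Γ × Ex G} {g g' : Γ × Ex G} (hg : g ∈ G1 G)
    (hg' : g' ∈ G1 G) (h1 : (g * t).1 ∈ J) (h2 : (g' * t).1 ∈ J)
    {χ : ↥(G ⊓ J) → F} (hχ : IsIrrTrace χ) :
    FixB J (g' * t) χ ↔ FixB J (g * t) χ := by
  have h3 : g' * t = (((g' * g⁻¹).1, 1) : Γ × Ex G) * (g * t) := by
    have h4 : (((g' * g⁻¹).1, 1) : Γ × Ex G) = g' * g⁻¹ := by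
      refine Prod.ext rfl ?_
      exact (mem_G1.1 ((G1 G).mul_mem hg' ((G1 G).inv_mem hg))).2.symm
    rw [h4, mul_assoc, inv_mul_cancel_left]
  rw [h3]
  refine FixB_left h1 ⟨(mem_G1.1 ((G1 G).mul_mem hg' ((G1 G).inv_mem hg))).1, ?_⟩ hχ
  have h5 : (g' * g⁻¹).1 = (g' * t).1 * (g * t).1⁻¹ := by
    rw [← Prod.fst_inv, ← Prod.fst_mul, mul_inv_rev, mul_assoc, mul_inv_cancel_left]
  rw [h5]
  exact J.mul_mem h2 (J.inv_mem h1)

/-- the number of the traces in `B` stable under a coset -/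
def stB (G J : Subgroup Γ) [G.Normal] (B : (G → F) → F)
    (t : Γ × Ex G) : ℕ :=
  Nat.card {χ : ↥(G ⊓ J) → F // (IsIrrTrace χ ∧ IndB G J B χ) ∧
      ∃ g ∈ G1 G, (g * t).1 ∈ J ∧ FixB J (g * t) χ}

theorem ACB_eq (J : Subgroup Γ) (B : (G → F) → F)
    (t : Γ × Ex G) : ACB J B t = Nat.card ↥(G ⊓ J) * stB G J B t := by
  have hfQ := finE G
  have : Fintype (G1 G) := Fintype.ofFinite _
  by_cases hex : ∃ g0 ∈ G1 G, (g0 * t).1 ∈ J
  · obtain ⟨g0, hg0, h0⟩ := hex
    have e1 : stB G J B t = cntB G J B (g0 * t) := by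
      unfold stB cntB
      refine Nat.card_congr (Equiv.subtypeEquivRight fun χ => and_congr_right fun hχ => ?_)
      constructor
      · rintro ⟨g, hg, h1, h2⟩
        exact (FixB_congr hg hg0 h1 h0 hχ.1).2 h2
      · intro h
        exact ⟨g0, hg0, h0, h⟩
    rw [e1]
    unfold ACB
    rw [finsum_eq_sum_of_fintype, ← Finset.sum_filter]
    have h1 : ∀ g ∈ Finset.univ.filter (fun g : G1 G => (g.1 * t).1 ∈ J),
        cntB G J B (g.1 * t) = cntB G J B (g0 * t) := by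
      intro g hg
      have h2 : (g.1 * t).1 ∈ J := (Finset.mem_filter.1 hg).2
      unfold cntB
      refine Nat.card_congr (Equiv.subtypeEquivRight fun χ => and_congr_right fun hχ => ?_)
      exact FixB_congr hg0 g.2 h0 h2 hχ.1
    rw [Finset.sum_congr rfl h1, Finset.sum_const, smul_eq_mul]
    congr 1
    rw [← Fintype.card_subtype, ← Nat.card_eq_fintype_card]
    have hK : ∀ g : {g : G1 G // (g.1 * t).1 ∈ J}, g.1.1.1 * (g0.1)⁻¹ ∈ G ⊓ J := by
      intro g
      refine ⟨G.mul_mem (mem_G1.1 g.1.2).1 (G.inv_mem (mem_G1.1 hg0).1), ?_⟩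
      have h5 : g.1.1.1 * (g0.1)⁻¹ = (g.1.1 * t).1 * (g0 * t).1⁻¹ := by
        rw [← Prod.fst_inv, ← Prod.fst_mul, ← Prod.fst_inv, ← Prod.fst_mul, mul_inv_rev,
          mul_assoc, mul_inv_cancel_left]
      rw [h5]
      exact J.mul_mem g.2 (J.inv_mem h0)
    refine Nat.card_congr
      { toFun := fun g => ⟨g.1.1.1 * (g0.1)⁻¹, hK g⟩
        invFun := fun a => ⟨⟨(a.1, 1) * g0, (G1 G).mul_mem (mem_G1.2 ⟨a.2.1, rfl⟩) hg0⟩, ?_⟩
        left_inv := ?_
        right_inv := ?_ }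
    · show (((a.1, 1) : Γ × Ex G) * g0 * t).1 ∈ J
      rw [mul_assoc]
      exact J.mul_mem a.2.2 h0
    · intro g
      apply Subtype.ext
      apply Subtype.ext
      refine Prod.ext ?_ ?_
      · show g.1.1.1 * (g0.1)⁻¹ * g0.1 = g.1.1.1
        rw [inv_mul_cancel_right]
      · show (1 : Ex G) * g0.2 = g.1.1.2
        rw [(mem_G1.1 hg0).2, (mem_G1.1 g.1.2).2, mul_one]
    · intro a
      apply Subtype.ext
      show a.1 * g0.1 * (g0.1)⁻¹ = a.1
      rw [mul_inv_cancel_right]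
  · have e0 : stB G J B t = 0 := by
      unfold stB
      have : IsEmpty {χ : ↥(G ⊓ J) → F // (IsIrrTrace χ ∧ IndB G J B χ) ∧
          ∃ g ∈ G1 G, (g * t).1 ∈ J ∧ FixB J (g * t) χ} :=
        ⟨fun χ => hex (let ⟨g, hg, h, _⟩ := χ.2.2; ⟨g, hg, h⟩)⟩
      exact Nat.card_of_isEmpty
    rw [e0, mul_zero]
    unfold ACB
    rw [finsum_congr (fun g => if_neg (fun h => hex ⟨g.1, g.2, h⟩)), finsum_zero]

/-- the exponents `v` inverse to `p^i` modulo the `p'`-part of `|G|` -/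
theorem FixB_iff [Fact p.Prime] [IsAlgClosed F] [CharP F p] {v : Ex G} {i : ℕ}
    (hv : (v : ZMod (Nat.card G)).val * p ^ i ≡ 1
      [MOD Nat.card G / p ^ (Nat.card G).factorization p]) (hok : OK p G v)
    {J : Subgroup Γ} {a : Γ} (ha : a ∈ J) {χ : ↥(G ⊓ J) → F} (hχ : IsIrrTrace χ) :
    FixB J (a, v) χ ↔
      ∀ x y : ↥(G ⊓ J), (y : Γ) = a * x * a⁻¹ → χ y = χ x ^ p ^ i := by
  have hsub : ∀ {k l : ℕ}, k ≡ l [MOD Nat.card G / p ^ (Nat.card G).factorization p] →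
      k ≡ l [MOD Nat.card ↥(G ⊓ J) / p ^ (Nat.card ↥(G ⊓ J)).factorization p] := fun h =>
    h.of_dvd (Nat.ordCompl_dvd_ordCompl_of_dvd (Subgroup.card_dvd_of_le inf_le_left) p)
  obtain ⟨j, hj⟩ := hok
  have hvj : ∀ y : ↥(G ⊓ J), χ (y ^ (v : ZMod (Nat.card G)).val) = χ y ^ p ^ j := fun y =>
    irr_pw hχ (hsub hj) y
  have hij : ∀ y : ↥(G ⊓ J), χ y ^ p ^ (j + i) = χ y := by
    intro y
    have h1 : 1 ≡ p ^ (j + i) [MOD Nat.card G / p ^ (Nat.card G).factorization p] := by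
      rw [pow_add]
      exact hv.symm.trans (hj.mul_right _)
    have h2 := irr_pw hχ (hsub h1) y
    rw [pow_one] at h2
    exact h2.symm
  have hinj : Function.Injective (fun c : F => c ^ p ^ j) := iterateFrobenius_inj F p j
  constructor
  · intro h x y hxy
    have h1 := h x (y ^ (v : ZMod (Nat.card G)).val) (by
      show (y : Γ) ^ (v : ZMod (Nat.card G)).val = (a * x * a⁻¹) ^ (v : ZMod (Nat.card G)).val
      rw [hxy])
    rw [hvj] at h1
    rw [← h1, ← pow_mul, ← pow_add]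
    exact (hij y).symm
  · intro h x y hxy
    have hm : a * x * a⁻¹ ∈ G ⊓ J := (conjN ha (x : Γ)).2 x.2
    have h1 := h x ⟨a * x * a⁻¹, hm⟩ rfl
    have h2 : y = (⟨a * x * a⁻¹, hm⟩ : ↥(G ⊓ J)) ^ (v : ZMod (Nat.card G)).val :=
      Subtype.ext hxy
    rw [h2, hvj, h1, ← pow_mul, ← pow_add, add_comm]
    exact hij x

theorem numB_eq [Fact p.Prime] [IsAlgClosed F] [CharP F p] {v : Ex G} {i : ℕ}
    (hv : (v : ZMod (Nat.card G)).val * p ^ i ≡ 1
      [MOD Nat.card G / p ^ (Nat.card G).factorization p]) (hok : OK p G v)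
    (J : Subgroup Γ) (B : (G → F) → F) (e : Γ) :
    numB G J B e (p ^ i) = stB G J B (e, v) := by
  unfold numB stB
  refine Nat.card_congr (Equiv.subtypeEquivRight fun χ => ?_)
  rw [and_assoc]
  refine and_congr_right fun hχ => and_congr_right fun _ => ?_
  constructor
  · rintro ⟨a, ha, hae, h⟩
    have h3 : (((a * e⁻¹, 1) : Γ × Ex G) * (e, v)) = (a, v) := by
      refine Prod.ext ?_ (one_mul v)
      show a * e⁻¹ * e = a
      rw [inv_mul_cancel_right]
    refine ⟨(a * e⁻¹, 1), mem_G1.2 ⟨hae, rfl⟩, ?_, ?_⟩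
    · rw [h3]
      exact ha
    · rw [h3]
      exact (FixB_iff hv hok ha hχ).2 h
  · rintro ⟨g, hg, h1, h2⟩
    have h3 : g * (e, v) = ((g * (e, v)).1, v) := by
      refine Prod.ext rfl ?_
      show g.2 * v = v
      rw [(mem_G1.1 hg).2, one_mul]
    refine ⟨(g * (e, v)).1, h1, ?_, ?_⟩
    · have h4 : (g * (e, v)).1 * e⁻¹ = g.1 := by
        show g.1 * e * e⁻¹ = g.1
        rw [mul_inv_cancel_right]
      rw [h4]
      exact (mem_G1.1 hg).1
    · rw [h3] at h2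
      exact (FixB_iff hv hok h1 hχ).1 h2

/-- invariance under conjugation -/
theorem numB_conj (B : (G → F) → F) (e : Γ) (q : ℕ) {g : Γ} (hg : g ∈ G) (J : Subgroup Γ) :
    numB G (conjSub g J) B e q = numB G J B e q := by
  have hcI : ∀ x : ↥(G ⊓ J), ((cI hG g J x : ↥(G ⊓ conjSub g J)) : Γ) = g * x * g⁻¹ :=
    fun _ => rfl
  have hInd : ∀ ψ : ↥(G ⊓ conjSub g J) → F, IndB G (conjSub g J) B ψ ↔
      IndB G J B (fun x => ψ (cI hG g J x)) := by
    intro ψ
    unfold IndB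
    refine forall_congr' fun f => forall_congr' fun hf => ?_
    have hfg : ∀ h : ↥(G ⊓ J), f ⟨cI hG g J h, (cI hG g J h).2.1⟩ = f ⟨h, h.2.1⟩ := fun h =>
      hf ⟨g, hg⟩ ⟨h, h.2.1⟩
    have hsum : ∀ x : ↥(G ⊓ J), ∑ᶠ h : ↥(G ⊓ conjSub g J), f ⟨h, h.2.1⟩ * ψ (h * cI hG g J x) =
        ∑ᶠ h : ↥(G ⊓ J), f ⟨h, h.2.1⟩ * ψ (cI hG g J (h * x)) := by
      intro x
      rw [← finsum_comp_equiv (cI hG g J).toEquiv]
      refine finsum_congr fun h => ?_
      show f ⟨cI hG g J h, (cI hG g J h).2.1⟩ * ψ (cI hG g J h * cI hG g J x) = _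
      rw [hfg, map_mul]
    constructor
    · intro h x
      rw [← hsum]
      exact h (cI hG g J x)
    · intro h x
      obtain ⟨x', rfl⟩ := (cI hG g J).surjective x
      rw [hsum]
      exact h x'
  have hSt : ∀ ψ : ↥(G ⊓ conjSub g J) → F, StableB G (conjSub g J) e q ψ ↔
      StableB G J e q (fun x => ψ (cI hG g J x)) := by
    intro ψ
    constructor
    · rintro ⟨a, ⟨b, hb, hab⟩, hae, h⟩
      have hab' : g * b * g⁻¹ = a := hab
      refine ⟨b, hb, ?_, fun x y hxy => ?_⟩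
      · have h1 : b * e⁻¹ = g⁻¹ * (a * e⁻¹) * (e * g * e⁻¹) := by
          rw [← hab']
          group
        rw [h1]
        exact G.mul_mem (G.mul_mem (G.inv_mem hg) hae) (hG.conj_mem g hg e)
      · refine h (cI hG g J x) (cI hG g J y) ?_
        rw [hcI, hcI, hxy, ← hab']
        group
    · rintro ⟨b, hb, hbe, h⟩
      refine ⟨g * b * g⁻¹, ⟨b, hb, rfl⟩, ?_, fun x y hxy => ?_⟩
      · have h1 : g * b * g⁻¹ * e⁻¹ = g * (b * e⁻¹) * (e * g⁻¹ * e⁻¹) := by group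
        rw [h1]
        exact G.mul_mem (G.mul_mem hg hbe) (hG.conj_mem _ (G.inv_mem hg) e)
      · obtain ⟨x', rfl⟩ := (cI hG g J).surjective x
        obtain ⟨y', rfl⟩ := (cI hG g J).surjective y
        refine h x' y' ?_
        rw [hcI, hcI] at hxy
        have h2 : (y' : Γ) = g⁻¹ * (g * y' * g⁻¹) * g := by group
        rw [h2, hxy]
        group
  have hback : ∀ χ : ↥(G ⊓ J) → F,
      (fun x => (fun x => χ ((cI hG g J).symm x)) (cI hG g J x)) = χ := by
    intro χ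
    funext x
    show χ ((cI hG g J).symm (cI hG g J x)) = χ x
    rw [MulEquiv.symm_apply_apply]
  unfold numB
  refine Nat.card_congr
    { toFun := fun ψ => ⟨fun x => ψ.1 (cI hG g J x),
        Pool.Agent.Y210.NV2.irrTrace_comp (cI hG g J) ψ.2.1, (hInd ψ.1).1 ψ.2.2.1,
        (hSt ψ.1).1 ψ.2.2.2⟩
      invFun := fun χ => ⟨fun x => χ.1 ((cI hG g J).symm x),
        Pool.Agent.Y210.NV2.irrTrace_comp (cI hG g J).symm χ.2.1, ?_, ?_⟩
      left_inv := ?_
      right_inv := ?_ }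
  · rw [hInd, hback]
    exact χ.2.2.1
  · rw [hSt, hback]
    exact χ.2.2.2
  · intro ψ
    apply Subtype.ext
    funext x
    show ψ.1 (cI hG g J ((cI hG g J).symm x)) = ψ.1 x
    rw [MulEquiv.apply_symm_apply]
  · intro χ
    apply Subtype.ext
    funext x
    show χ.1 ((cI hG g J).symm (cI hG g J x)) = χ.1 x
    rw [MulEquiv.symm_apply_apply]

/-- the exponents of an automorphism acting as a power of `p` on the roots of unity of order prime
to `p` -/
theorem exp_ok [Fact p.Prime] {τ : ℂ ≃+* ℂ} {i : ℕ}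
    (h : ∀ z : ℂ, z ^ (Nat.card G / p ^ (Nat.card G).factorization p) = 1 → τ z = z ^ p ^ i)
    {v : Ex G} (hv : ∀ z : ℂ, z ^ Nat.card G = 1 → τ.symm z = z ^ (v : ZMod (Nat.card G)).val) :
    (v : ZMod (Nat.card G)).val * p ^ i ≡ 1
      [MOD Nat.card G / p ^ (Nat.card G).factorization p] ∧ OK p G v := by
  have hp : p.Prime := Fact.out
  set m := Nat.card G / p ^ (Nat.card G).factorization p with hm
  have hmd : m ∣ Nat.card G := Nat.ordCompl_dvd _ _
  have hm0 : m ≠ 0 := fun h0 => (Nat.card_pos (α := G)).ne' (Nat.eq_zero_of_zero_dvd (h0 ▸ hmd))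
  have hζ := Complex.isPrimitiveRoot_exp m hm0
  set ζ := Complex.exp (2 * Real.pi * Complex.I / m) with hζd
  have h2 : ζ ^ Nat.card G = 1 := by
    obtain ⟨k, hk⟩ := hmd
    rw [hk, pow_mul, hζ.pow_eq_one, one_pow]
  have h3 : (v : ZMod (Nat.card G)).val * p ^ i ≡ 1 [MOD m] := by
    have h4 : ζ ^ ((v : ZMod (Nat.card G)).val * p ^ i) = ζ ^ 1 := by
      have h5 := congrArg τ (hv ζ h2)
      rw [RingEquiv.apply_symm_apply, map_pow, h ζ hζ.pow_eq_one, ← pow_mul] at h5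
      rw [pow_one, mul_comm]
      exact h5.symm
    exact prim_congr hζ hm0 h4
  refine ⟨h3, ?_⟩
  have hcop : p.Coprime m := Nat.coprime_ordCompl hp (Nat.card_pos (α := G)).ne'
  have h6 : p ^ Nat.totient m ≡ 1 [MOD m] := Nat.ModEq.pow_totient hcop
  have h7 : 0 < Nat.totient m := Nat.totient_pos.2 (Nat.pos_of_ne_zero hm0)
  refine ⟨i * (Nat.totient m - 1), ?_⟩
  have h8 : p ^ i * p ^ (i * (Nat.totient m - 1)) ≡ 1 [MOD m] := by
    have h9 : i + i * (Nat.totient m - 1) = Nat.totient m * i := by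
      obtain ⟨k, hk⟩ := Nat.exists_eq_succ_of_ne_zero h7.ne'
      rw [hk, Nat.succ_sub_one, Nat.succ_mul, add_comm, mul_comm]
    rw [← pow_add, h9, pow_mul]
    have h10 := h6.pow i
    rwa [one_pow] at h10
  calc (v : ZMod (Nat.card G)).val = (v : ZMod (Nat.card G)).val * 1 := (mul_one _).symm
    _ ≡ (v : ZMod (Nat.card G)).val * (p ^ i * p ^ (i * (Nat.totient m - 1))) [MOD m] :=
        h8.symm.mul_left _
    _ = (v : ZMod (Nat.card G)).val * p ^ i * p ^ (i * (Nat.totient m - 1)) := by ring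
    _ ≡ 1 * p ^ (i * (Nat.totient m - 1)) [MOD m] := h3.mul_right _
    _ = p ^ (i * (Nat.totient m - 1)) := one_mul _

/-- **The equivariant and Galois form of the comparison of ordinary and Brauer characters.** -/
theorem rel_kl [Fact p.Prime] [IsAlgClosed F] [CharP F p] (red : integralClosure ℤ ℂ →+* F)
    (B : (G → F) → F) (e : Γ) (τ : ℂ ≃+* ℂ) (i : ℕ)
    (h : ∀ z : ℂ, z ^ (Nat.card G / p ^ (Nat.card G).factorization p) = 1 → τ z = z ^ p ^ i) :
    relSum p G (fun J => (numInv red G J B e τ : ℤ)) =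
      relSum p G (fun J => (numB G J B e (p ^ i) : ℤ)) := by
  have : Fintype (CH p G) := Fintype.ofFinite _
  have hpos : (Nat.card G : ℤ) ≠ 0 := by exact_mod_cast Nat.card_pos.ne'
  refine mul_left_cancel₀ hpos ?_
  rw [rel_mul _ (fun g hg J => by rw [numInv_conj red B e τ hg]) hG,
    rel_mul _ (fun g hg J => by rw [numB_conj B e (p ^ i) hg]) hG]
  obtain ⟨v, hv⟩ := exists_exp τ.symm G
  obtain ⟨hv1, hok⟩ := exp_ok h hv
  simp only [numInv_eq red _ B hv, numB_eq hv1 hok]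
  have h1 := klmain2 red B (e, v) hok (p := p)
  simp only [AC_eq, ACB_eq, Nat.cast_mul] at h1
  exact h1

end Pool.Agent.R663.GB
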