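import Pool.Agent.Y63.NV.Final

/-!
# Frobenius twists of irreducible traces
-/

set_option autoImplicit false
set_option linter.unusedSectionVars false

open scoped Classical

noncomputable section

namespace Pool.Agent.R663.GB

open Pool.Agent.Y63.NV
open Pool.Agent.Y77.NV (pp_reg reg_pp pp_pp pp_conj pp_coe pp_mem)

section semi

variable {K K' V : Type} [Field K] [Field K'] [AddCommGroup V] [Module K V] [Module K' V]
  (e : K ≃+* K')

theorem trace_semi [FiniteDimensional K V] (h : ∀ (c : K) (x : V), e c • x = c • x) (f : V →ₗ[K] V) (f' : V →ₗ[K'] V)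
    (hf : ∀ v, f' v = f v) : LinearMap.trace K' V f' = e (LinearMap.trace K V f) := by
  let b := Module.finBasis K V
  let b' := b.mapCoeffs e h
  rw [LinearMap.trace_eq_matrix_trace K' b' f', LinearMap.trace_eq_matrix_trace K b f]
  unfold Matrix.trace
  rw [map_sum]
  refine Finset.sum_congr rfl fun i _ => ?_
  rw [Matrix.diag_apply, Matrix.diag_apply, LinearMap.toMatrix_apply, LinearMap.toMatrix_apply]
  have h1 : b' i = b i := by
    simp [b']
  rw [h1, hf]
  rfl

theorem fin_semi (h : ∀ (c : K) (x : V), e c • x = c • x) (h3 : FiniteDimensional K V) :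
    FiniteDimensional K' V := by
  let b := Module.finBasis K V
  let b' := b.mapCoeffs e h
  exact Module.Basis.finiteDimensional_of_finite b'

theorem irr_semi {G : Type} [Group G] (h : ∀ (c : K) (x : V), e c • x = c • x)
    (ρ : Representation K G V) (ρ' : Representation K' G V) (hρ : ∀ g v, ρ' g v = ρ g v)
    (h1 : ρ.IsIrreducible) : ρ'.IsIrreducible := by
  let o : Subrepresentation ρ' ≃o Subrepresentation ρ :=
    { toFun := fun s =>
        { toSubmodule :=
            { carrier := s.toSubmodule
              add_mem' := fun ha hb => s.toSubmodule.add_mem ha hb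
              zero_mem' := s.toSubmodule.zero_mem
              smul_mem' := fun c x hx => by
                rw [← h]
                exact s.toSubmodule.smul_mem _ hx }
          apply_mem_toSubmodule := fun g v hv => by
            rw [← hρ]
            exact s.apply_mem_toSubmodule g hv }
      invFun := fun s =>
        { toSubmodule :=
            { carrier := s.toSubmodule
              add_mem' := fun ha hb => s.toSubmodule.add_mem ha hb
              zero_mem' := s.toSubmodule.zero_mem
              smul_mem' := fun c x hx => by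
                have h2 : c • x = e.symm c • x := by rw [← h, e.apply_symm_apply]
                rw [h2]
                exact s.toSubmodule.smul_mem _ hx }
          apply_mem_toSubmodule := fun g v hv => by
            rw [hρ]
            exact s.apply_mem_toSubmodule g hv }
      left_inv := fun s => rfl
      right_inv := fun s => rfl
      map_rel_iff' := Iff.rfl }
  exact o.isSimpleOrder_iff.2 h1

end semi

theorem irr_twist {F : Type} [Field F] {G : Type} [Group G] (e : F ≃+* F) {φ : G → F}
    (hφ : IsIrrTrace φ) : IsIrrTrace (fun x => e (φ x)) := by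
  obtain ⟨V, i1, i2, i3, ρ, h1, rfl⟩ := hφ
  let r : G → V → V := fun g v => ρ g v
  have ha : ∀ (g : G) (a b : V), r g (a + b) = r g a + r g b := fun g a b => map_add _ _ _
  have hs : ∀ (g : G) (c : F) (v : V), r g (c • v) = c • r g v := fun g c v => map_smul _ _ _
  have ho : ∀ v : V, r 1 v = v := fun v => by
    show ρ 1 v = v
    rw [map_one]
    rfl
  have hm : ∀ (a b : G) (v : V), r (a * b) v = r a (r b v) := fun a b v => by
    show ρ (a * b) v = ρ a (ρ b v)
    rw [map_mul]
    rfl
  let i2' : Module F V := Module.compHom V (e.symm : F →+* F)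
  have h : ∀ (c : F) (x : V), i2'.toSMul.smul (e c) x = i2.toSMul.smul c x := by
    intro c x
    show i2.toSMul.smul (e.symm (e c)) x = i2.toSMul.smul c x
    rw [e.symm_apply_apply]
  have i3' : @FiniteDimensional F V _ _ i2' := @fin_semi F F V _ _ _ i2 i2' e h i3
  let ρ' : @Representation F G V _ _ _ i2' :=
    { toFun := fun g =>
        { toFun := fun v => r g v
          map_add' := fun a b => ha g a b
          map_smul' := fun c v => hs g (e.symm c) v }
      map_one' := by
        ext v
        exact ho v
      map_mul' := fun a b => by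
        ext v
        exact hm a b v }
  refine ⟨V, i1, i2', i3', ρ', ?_, ?_⟩
  · exact @irr_semi F F V _ _ _ i2 i2' e G _ h ρ ρ' (fun _ _ => rfl) h1
  · funext x
    exact (@trace_semi F F V _ _ _ i2 i2' e i3 h (ρ x) (ρ' x) (fun _ => rfl)).symm

theorem trace_frob {F : Type} [Field F] (p : ℕ) [Fact p.Prime] [CharP F p] {n : Type} [Fintype n]
    [DecidableEq n] (M : Matrix n n F) (k : ℕ) :
    (M ^ p ^ k).trace = M.trace ^ p ^ k := by
  rcases isEmpty_or_nonempty n with hn | hn
  · rw [Matrix.trace_eq_zero_of_isEmpty, Matrix.trace_eq_zero_of_isEmpty, zero_pow]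
    exact pow_ne_zero _ (Fact.out : p.Prime).ne_zero
  have h1 : Polynomial.expand F (p ^ k) (M ^ p ^ k).charpoly = M.charpoly ^ p ^ k := by
    unfold Matrix.charpoly
    rw [AlgHom.map_det, ← Matrix.coe_detMonoidHom,
      ← (Matrix.detMonoidHom : Matrix n n (Polynomial F) →* Polynomial F).map_pow]
    apply congr_arg Matrix.det
    refine matPolyEquiv.injective ?_
    rw [map_pow, Matrix.matPolyEquiv_charmatrix, sub_pow_char_pow_of_commute, ← Polynomial.C_pow]
    · exact (id (matPolyEquiv_eq_X_pow_sub_C (p ^ k) M) :)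
    · exact (Polynomial.C M).commute_X
  have h2 := congrArg (fun q : Polynomial F => q.coeff ((Fintype.card n - 1) * p ^ k)) h1
  have hp : 0 < p ^ k := pow_pos (Fact.out : p.Prime).pos _
  simp only [Polynomial.coeff_expand_mul hp] at h2
  rw [← Polynomial.map_iterateFrobenius_expand p, Polynomial.coeff_map,
    Polynomial.coeff_expand_mul hp] at h2
  rw [Matrix.trace_eq_neg_charpoly_coeff, Matrix.trace_eq_neg_charpoly_coeff, h2,
    iterateFrobenius_def, ← iterateFrobenius_def, ← iterateFrobenius_def, map_neg]

theorem char_frob {F : Type} [Field F] (p : ℕ) [Fact p.Prime] [CharP F p] {G : Type} [Group G]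
    {φ : G → F} (hφ : IsIrrTrace φ) (x : G) (k : ℕ) : φ (x ^ p ^ k) = φ x ^ p ^ k := by
  obtain ⟨V, i1, i2, i3, ρ, h1, rfl⟩ := hφ
  show LinearMap.trace F V (ρ (x ^ p ^ k)) = (LinearMap.trace F V (ρ x)) ^ p ^ k
  let b := Module.finBasis F V
  rw [LinearMap.trace_eq_matrix_trace F b, LinearMap.trace_eq_matrix_trace F b, ← trace_frob p]
  congr 1
  rw [map_pow]
  exact map_pow (LinearMap.toMatrixAlgEquiv b) (ρ x) (p ^ k)

/-- powers congruent to powers of `p` modulo the `p'`-part of the order -/
theorem irr_pw {F : Type} [Field F] [IsAlgClosed F] {p : ℕ} [Fact p.Prime] [CharP F p] {G : Type}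
    [Group G] [Finite G] {φ : G → F} (hφ : IsIrrTrace φ) {k j : ℕ}
    (hk : k ≡ p ^ j [MOD Nat.card G / p ^ (Nat.card G).factorization p]) (x : G) :
    φ (x ^ k) = φ x ^ p ^ j := by
  have hppt := Pool.Agent.Y705.NV.ppt p F G φ hφ
  have hpow : ∀ (y : G) (n : ℕ), pp p (y ^ n) = (pp p y) ^ n := by
    intro y n
    unfold pp
    rw [← pow_mul, ← pow_mul, mul_comm]
  have hd : orderOf (pp p x) ∣ Nat.card G / p ^ (Nat.card G).factorization p := by
    have h2 : orderOf (pp p x) ∣ Nat.card G := orderOf_dvd_natCard _
    rw [← Nat.ordProj_mul_ordCompl_eq_self (Nat.card G) p] at h2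
    exact Nat.Coprime.dvd_of_dvd_mul_left (Nat.Coprime.pow_right _
      ((Nat.Prime.coprime_iff_not_dvd Fact.out).mpr (reg_pp x)).symm) h2
  have h3 : (pp p x) ^ k = (pp p x) ^ p ^ j := pow_eq_pow_iff_modEq.2 (hk.of_dvd hd)
  rw [← hppt (x ^ k), hpow, h3, ← hpow, hppt, char_frob p hφ]

theorem irr_pw' {F : Type} [Field F] [IsAlgClosed F] {p : ℕ} [Fact p.Prime] [CharP F p] {G : Type}
    [Group G] [Finite G] {φ : G → F} (hφ : IsIrrTrace φ) {k j : ℕ}
    (hk : k ≡ p ^ j [MOD Nat.card G / p ^ (Nat.card G).factorization p]) :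
    IsIrrTrace (fun x => φ (x ^ k)) := by
  have h1 := irr_twist (iterateFrobeniusEquiv F p j) hφ
  have h2 : (fun x => φ (x ^ k)) = fun x => iterateFrobeniusEquiv F p j (φ x) := by
    funext x
    rw [irr_pw hφ hk]
    rfl
  rw [h2]
  exact h1

end Pool.Agent.R663.GB
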