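import Pool.Agent.R663.GB.FixB
import Pool.Agent.R663.GA.MainE

/-!
# The equivariant form for irreducible traces
-/

set_option autoImplicit false
set_option linter.unusedSectionVars false

open scoped Classical Pointwise

noncomputable section

namespace Pool.Agent.R663.GB

open Pool.Agent.Y63.AWC (IsIrreducibleCharacter)
open Pool.Agent.Y63.NV
open Pool.Agent.Y63.KR
open Pool.Agent.Y63.NV.B77 (Irr irr_fin irr_conj)
open Pool.Agent.R663.KRB
open Pool.Agent.R663.GA
open Pool.Agent.R615.KB (block_equiv block_chain)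

variable {F : Type} [Field F] {Γ : Type} [Group Γ] [Finite Γ]
variable {G : Subgroup Γ} {p : ℕ}

/-- the functional of an irreducible trace -/
def mI [IsAlgClosed F] (G J : Subgroup Γ) (φ : Irr F ↥(G ⊓ J)) (f : G → F) : F :=
  lam (fun x : ↥(G ⊓ J) => f ⟨x, x.2.1⟩) φ

/-- `bl(φ)^G` is defined -/
theorem blkI [Fact p.Prime] [IsAlgClosed F] [CharP F p]
    {σ : Set (Subgroup Γ)} (hσ : IsPChain p σ) (hG : ∀ P ∈ σ, P ≤ G)
    (φ : Irr F ↥(G ⊓ chainStabilizer σ)) : IsBlock (mI G (chainStabilizer σ) φ) := by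
  have h1 := block_equiv (isoE hG).symm (lam_block φ)
  exact block_chain (p := p) _ _ rfl (chain_sub hσ hG) _ rfl _ h1

/-- `bl(φ)^G = B` -/
def IndB {F : Type} [Field F] {E : Type} [Group E]
    (G J : Subgroup E) (B : (G → F) → F) (φ : ↥(G ⊓ J) → F) : Prop :=
  ∀ f : G → F, IsClassFun f → ∀ x : ↥(G ⊓ J),
    ∑ᶠ g : ↥(G ⊓ J), f ⟨g, g.2.1⟩ * φ (g * x) = B f * φ x

theorem IndB_iff [IsAlgClosed F] (J : Subgroup Γ) (B : (G → F) → F) (φ : Irr F ↥(G ⊓ J)) :
    IndB G J B φ.1 ↔ ∀ f : G → F, IsClassFun f → mI G J φ f = B f := by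
  unfold IndB mI
  refine forall_congr' fun f => forall_congr' fun hf => ?_
  exact lam_iff (z := fun x : ↥(G ⊓ J) => f ⟨x, x.2.1⟩) (fun a x => hf ⟨a, a.2.1⟩ ⟨x, x.2.1⟩) φ _

variable [hG : G.Normal]

/-- invariance of the functional of a fixed trace -/
theorem fix_StI [IsAlgClosed F] {J : Subgroup Γ} (φ : Irr F ↥(G ⊓ J)) {t : Γ × Ex G} (ht : t.1 ∈ J)
    (hfix : ∀ x y : ↥(G ⊓ J), (y : Γ) = tw t x → φ.1 y = φ.1 x) :
    t ∈ StB (mI G J φ) := by
  have : Fintype ↥(G ⊓ J) := Fintype.ofFinite _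
  intro f hf
  have hcl : IsClassFun (fun x : ↥(G ⊓ J) => f ⟨x, x.2.1⟩) :=
    fun a x => hf ⟨a, a.2.1⟩ ⟨x, x.2.1⟩
  have hcl2 : IsClassFun (fun x : ↥(G ⊓ J) => f (op t ⟨x, x.2.1⟩)) :=
    fun a x => op_class t hf ⟨a, a.2.1⟩ ⟨x, x.2.1⟩
  have h0 : ∀ x : ↥(G ⊓ J), φ.1 (twJ ht x) = φ.1 x := fun x => hfix x _ rfl
  unfold mI
  rw [← lam_iff hcl2]
  intro x
  have h1 := lam_spec hcl φ (twJ ht x)
  rw [finsum_eq_sum_of_fintype] at h1 ⊢
  rw [pm_tw (z := fun x : ↥(G ⊓ J) => f ⟨x, x.2.1⟩) (θ := φ.1) ht hcl (irr_conj φ.2), h0] at h1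
  rw [← h1]
  refine Finset.sum_congr rfl fun g _ => ?_
  rw [h0]
  rfl

/-- the number of irreducible traces in `B` fixed by a twisted conjugation -/
def cntB (G J : Subgroup Γ) (B : (G → F) → F)
    (t : Γ × Ex G) : ℕ :=
  Nat.card {φ : ↥(G ⊓ J) → F // (IsIrrTrace φ ∧ IndB G J B φ) ∧
      ∀ x y : ↥(G ⊓ J), (y : Γ) = tw t x → φ y = φ x}

/-- the sum over a coset -/
def ACB (J : Subgroup Γ) (B : (G → F) → F)
    (t : Γ × Ex G) : ℕ :=
  ∑ᶠ g : G1 G, if (g.1 * t).1 ∈ J then cntB G J B (g.1 * t) else 0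

theorem klmain1 [Fact p.Prime] [IsAlgClosed F] [CharP F p]
    (red : integralClosure ℤ ℂ →+* F)
    {B : (G → F) → F} (hB : IsBlock B) {t : Γ × Ex G} (ht1 : t ∈ StB B)
    (hok : ∀ s ∈ G1 G ⊔ Subgroup.zpowers t, OK p G s.2) [Fintype (CH p G)] :
    ∑ σ : CH p G, (-1 : ℤ) ^ σ.1.ncard * (AC red (chainStabilizer σ.1) B t : ℤ) =
      ∑ σ : CH p G, (-1 : ℤ) ^ σ.1.ncard * (ACB (chainStabilizer σ.1) B t : ℤ) := by
  have hInf : Infinite F := inferInstance
  have hfQ := finE G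
  have hfS : Finite (StB B) := inferInstance
  have hT : G1 G ⊔ Subgroup.zpowers t ≤ StB B := sup_le (G1_le B) ((Subgroup.zpowers_le).2 ht1)
  have hfI : ∀ σ : CH p G, Finite {χ : ↥(G ⊓ chainStabilizer σ.1) → ℂ //
      IsIrreducibleCharacter χ} := fun σ => Pool.Agent.Y171.NV.irr_fin _
  have hfI2 : ∀ σ : CH p G, Finite (Irr F ↥(G ⊓ chainStabilizer σ.1)) :=
    fun σ => irr_fin Pool.Agent.Y914.NV.irr
  obtain ⟨z, hz1, hz2, hz3, hz4⟩ := sep_inv (P := StB B) (fun t x => op t.1 x)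
    (fun x => Subtype.ext (tw_one x.2)) (fun s t x => Subtype.ext (tw_mul s.1 t.1 x.2))
    (fun t f hf => op_class t.1 hf) (fun t => op_one' t.1)
    (fun t f g hf hg => op_conv t.1 hf hg)
    (I := (Σ σ : CH p G, {χ : ↥(G ⊓ chainStabilizer σ.1) → ℂ // IsIrreducibleCharacter χ}) ⊕
      (Σ σ : CH p G, Irr F ↥(G ⊓ chainStabilizer σ.1)))
    (Sum.elim (fun i => mE red G (chainStabilizer i.1.1) i.2.1)
      (fun i => mI G (chainStabilizer i.1.1) i.2))
    (by
      rintro (i | i)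
      · exact blkE red i.1.2.1 i.1.2.2 i.2.2
      · exact blkI i.1.2.1 i.1.2.2 i.2) hB (fun t => t.2)
  -- the extension by zero
  let z' : Γ → F := fun x => if hx : x ∈ G then z ⟨x, hx⟩ else 0
  have hz' : ∀ x (hx : x ∈ G), z' x = z ⟨x, hx⟩ := fun x hx => dif_pos hx
  have hzV : z' ∈ (VT (StB B) G ⊤ : Submodule F (Γ → F)) := by
    refine ⟨fun x hx => dif_neg hx, fun s hs _ x hx => ?_⟩
    rw [hz' x hx, hz' _ (tw_mem s hx)]
    exact hz2 ⟨s, hs⟩ ⟨x, hx⟩
  have hcnt : ∀ (σ : CH p G) (s : Γ × Ex G), FX red G (chainStabilizer σ.1) z' 0 s =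
      cntE red G (chainStabilizer σ.1) B s := by
    intro σ s
    unfold FX cntE
    refine Nat.card_congr (Equiv.subtypeEquivRight fun χ => and_congr_left fun _ =>
      and_congr_right fun hχ => ?_)
    have e1 : centralValue red χ (fun x : ↥(G ⊓ chainStabilizer σ.1) => z' x) =
        mE red G (chainStabilizer σ.1) χ z := by
      unfold mE
      congr 1
      funext x
      exact hz' x x.2.1
    rw [e1]
    constructor
    · intro h
      exact hz4 (Sum.inl ⟨σ, ⟨χ, hχ⟩⟩) h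
    · intro h
      rw [h z hz1, hz3]
  have hcntB : ∀ (σ : CH p G) (s : Γ × Ex G), FB G (chainStabilizer σ.1) z' 0 s =
      cntB G (chainStabilizer σ.1) B s := by
    intro σ s
    unfold FB cntB
    refine Nat.card_congr (Equiv.subtypeEquivRight fun φ => and_congr_left fun _ =>
      and_congr_right fun hφ => ?_)
    have e1 : (fun x : ↥(G ⊓ chainStabilizer σ.1) => z' x) =
        fun x : ↥(G ⊓ chainStabilizer σ.1) => z ⟨x, x.2.1⟩ := by
      funext x
      exact hz' x x.2.1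
    rw [e1, lam_iff (z := fun x : ↥(G ⊓ chainStabilizer σ.1) => z ⟨x, x.2.1⟩)
      (fun a x => hz1 ⟨a, a.2.1⟩ ⟨x, x.2.1⟩) ⟨φ, hφ⟩ 0, IndB_iff _ B ⟨φ, hφ⟩]
    constructor
    · intro h
      exact hz4 (Sum.inr ⟨σ, ⟨φ, hφ⟩⟩) h
    · intro h
      have h2 := h z hz1
      rw [hz3] at h2
      exact h2
  have h1 := kl_twist (T := G1 G ⊔ Subgroup.zpowers t) le_sup_left hok red (VT_anti hT hzV)
    0 (p := p) (t := t)
    ((le_sup_right : Subgroup.zpowers t ≤ G1 G ⊔ Subgroup.zpowers t) (Subgroup.mem_zpowers t))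
  have hA : ∀ (σ : CH p G) (s : Γ × Ex G), AF red (chainStabilizer σ.1) z' 0 s =
      AC red (chainStabilizer σ.1) B s := by
    intro σ s
    unfold AF AC
    refine finsum_congr fun g => ?_
    rw [hcnt]
  have hA2 : ∀ (σ : CH p G) (s : Γ × Ex G), AB (chainStabilizer σ.1) z' 0 s =
      ACB (chainStabilizer σ.1) B s := by
    intro σ s
    unfold AB ACB
    refine finsum_congr fun g => ?_
    rw [hcntB]
  simp only [hA, hA2] at h1
  exact h1

omit hG in
theorem OK_one : OK p G 1 := by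
  refine ⟨0, ?_⟩
  rw [Units.val_one, ZMod.val_one_eq_one_mod, pow_zero]
  exact (Nat.mod_modEq _ _).of_dvd (Nat.ordCompl_dvd _ _)

omit hG in
theorem OK_mul {u v : Ex G} (hu : OK p G u) (hv : OK p G v) : OK p G (u * v) := by
  have : NeZero (Nat.card G) := ⟨Nat.card_pos.ne'⟩
  obtain ⟨i, hi⟩ := hu
  obtain ⟨j, hj⟩ := hv
  refine ⟨i + j, ?_⟩
  have h1 : ((u * v : Ex G) : ZMod (Nat.card G)).val ≡
      (u : ZMod (Nat.card G)).val * (v : ZMod (Nat.card G)).val
        [MOD Nat.card G / p ^ (Nat.card G).factorization p] := by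
    refine Nat.ModEq.of_dvd (Nat.ordCompl_dvd (Nat.card G) p) ?_
    rw [Units.val_mul, ZMod.val_mul]
    exact Nat.mod_modEq _ _
  rw [pow_add]
  exact h1.trans (hi.mul hj)

omit hG in
theorem OK_pow {u : Ex G} (hu : OK p G u) (n : ℕ) : OK p G (u ^ n) := by
  induction n with
  | zero =>
    rw [pow_zero]
    exact OK_one
  | succ n ih =>
    rw [pow_succ]
    exact OK_mul ih hu

omit hG in
theorem OK_inv {u : Ex G} (hu : OK p G u) : OK p G u⁻¹ := by
  have : NeZero (Nat.card G) := ⟨Nat.card_pos.ne'⟩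
  have : Finite (Ex G) := inferInstance
  have h1 : u⁻¹ = u ^ (orderOf u - 1) := by
    have h2 : u ^ (orderOf u - 1) * u = 1 := by
      rw [← pow_succ, Nat.sub_add_cancel (orderOf_pos u), pow_orderOf_eq_one]
    exact inv_eq_of_mul_eq_one_left h2
  rw [h1]
  exact OK_pow hu _

/-- the twisted conjugations with these exponents -/
def OKs (p : ℕ) (G : Subgroup Γ) : Subgroup (Γ × Ex G) where
  carrier := {t | OK p G t.2}
  one_mem' := OK_one
  mul_mem' := OK_mul
  inv_mem' := OK_inv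

/-- **The equivariant form, with power maps.** -/
theorem klmain2 [Fact p.Prime] [IsAlgClosed F] [CharP F p]
    (red : integralClosure ℤ ℂ →+* F)
    (B : (G → F) → F) (t : Γ × Ex G) (hok : OK p G t.2) [Fintype (CH p G)] :
    ∑ σ : CH p G, (-1 : ℤ) ^ σ.1.ncard * (AC red (chainStabilizer σ.1) B t : ℤ) =
      ∑ σ : CH p G, (-1 : ℤ) ^ σ.1.ncard * (ACB (chainStabilizer σ.1) B t : ℤ) := by
  have hok2 : ∀ s ∈ G1 G ⊔ Subgroup.zpowers t, OK p G s.2 := by
    have h1 : G1 G ⊔ Subgroup.zpowers t ≤ OKs p G := by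
      refine sup_le ?_ ((Subgroup.zpowers_le).2 hok)
      intro s hs
      show OK p G s.2
      rw [(mem_G1.1 hs).2]
      exact OK_one
    exact fun s hs => h1 hs
  by_cases hex : ∃ B' : (G → F) → F, IsBlock B' ∧ t ∈ StB B' ∧ ∀ f, IsClassFun f → B' f = B f
  · obtain ⟨B', hB', ht, h1⟩ := hex
    have hcnt : ∀ J t, cntE red G J B t = cntE red G J B' t := by
      intro J t
      unfold cntE
      refine Nat.card_congr (Equiv.subtypeEquivRight fun ψ => and_congr_left fun _ =>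
        and_congr_right fun _ => forall_congr' fun f => forall_congr' fun hf => ?_)
      rw [h1 f hf]
    have hcntB : ∀ J t, cntB G J B t = cntB G J B' t := by
      intro J t
      unfold cntB IndB
      refine Nat.card_congr (Equiv.subtypeEquivRight fun ψ => and_congr_left fun _ =>
        and_congr_right fun _ => forall_congr' fun f => forall_congr' fun hf => ?_)
      rw [h1 f hf]
    have hAC : ∀ J t, AC red J B t = AC red J B' t := by
      intro J t
      unfold AC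
      simp only [hcnt]
    have hACB : ∀ J t, ACB J B t = ACB J B' t := by
      intro J t
      unfold ACB
      simp only [hcntB]
    simp only [hAC, hACB]
    exact klmain1 red hB' ht hok2
  · have hback : ∀ (B' : (G → F) → F) (g : Γ × Ex G), g ∈ G1 G → g * t ∈ StB B' → t ∈ StB B' := by
      intro B' g hg h
      have h3 := (StB B').mul_mem ((StB B').inv_mem (G1_le B' hg)) h
      rwa [inv_mul_cancel_left] at h3
    have h0 : ∀ σ : CH p G, AC red (chainStabilizer σ.1) B t = 0 := by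
      intro σ
      unfold AC
      have h1 : ∀ g : G1 G, (if (g.1 * t).1 ∈ chainStabilizer σ.1 then
          cntE red G (chainStabilizer σ.1) B (g.1 * t) else 0) = 0 := by
        intro g
        split_ifs with hg
        · unfold cntE
          have : IsEmpty {χ : ↥(G ⊓ chainStabilizer σ.1) → ℂ // (IsIrreducibleCharacter χ ∧
              ∀ f : G → F, IsClassFun f → mE red G (chainStabilizer σ.1) χ f = B f) ∧
              ∀ x y : ↥(G ⊓ chainStabilizer σ.1), (y : Γ) = tw (g.1 * t) x → χ y = χ x} :=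
            ⟨fun χ => hex ⟨mE red G (chainStabilizer σ.1) χ.1, blkE red σ.2.1 σ.2.2 χ.2.1.1,
              hback _ g.1 g.2 (fix_StB red χ.2.1.1 hg χ.2.2), χ.2.1.2⟩⟩
          exact Nat.card_of_isEmpty
        · rfl
      rw [finsum_congr h1, finsum_zero]
    have h0B : ∀ σ : CH p G, ACB (chainStabilizer σ.1) B t = 0 := by
      intro σ
      unfold ACB
      have h1 : ∀ g : G1 G, (if (g.1 * t).1 ∈ chainStabilizer σ.1 then
          cntB G (chainStabilizer σ.1) B (g.1 * t) else 0) = 0 := by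
        intro g
        split_ifs with hg
        · unfold cntB
          have : IsEmpty {φ : ↥(G ⊓ chainStabilizer σ.1) → F // (IsIrrTrace φ ∧
              IndB G (chainStabilizer σ.1) B φ) ∧
              ∀ x y : ↥(G ⊓ chainStabilizer σ.1), (y : Γ) = tw (g.1 * t) x → φ y = φ x} :=
            ⟨fun φ => hex ⟨mI G (chainStabilizer σ.1) ⟨φ.1, φ.2.1.1⟩,
              blkI σ.2.1 σ.2.2 ⟨φ.1, φ.2.1.1⟩,
              hback _ g.1 g.2 (fix_StI ⟨φ.1, φ.2.1.1⟩ hg φ.2.2),
              (IndB_iff _ B ⟨φ.1, φ.2.1.1⟩).1 φ.2.1.2⟩⟩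
          exact Nat.card_of_isEmpty
        · rfl
      rw [finsum_congr h1, finsum_zero]
    rw [Finset.sum_eq_zero fun σ _ => by rw [h0, Nat.cast_zero, mul_zero],
      Finset.sum_eq_zero fun σ _ => by rw [h0B, Nat.cast_zero, mul_zero]]

end Pool.Agent.R663.GB
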