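import Pool.Agent.R663.GB.BurnB

/-!
# Alternating sums of numbers of fixed irreducible traces
-/

set_option autoImplicit false
set_option linter.unusedSectionVars false

open scoped Classical Pointwise

noncomputable section

namespace Pool.Agent.R663.GB

open Pool.Agent.Y63.NV
open Pool.Agent.Y63.KR
open Pool.Agent.Y77.NV (pp_reg reg_pp pp_pp pp_conj pp_coe pp_mem count)
open Pool.Agent.Y930.NV (Cf)
open Pool.Agent.Y63.NV.B77 (Irr irr_fin coef_unique coef_ex irr_conj)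
open Pool.Agent.R663.KRB
open Pool.Agent.R663.GA

variable {F : Type} [Field F] {Γ : Type} [Group Γ] [Finite Γ]
variable {G : Subgroup Γ} [hG : G.Normal] {T : Subgroup (Γ × Ex G)} {p : ℕ}

theorem sam_bot [Fact p.Prime] (H : Subgroup Γ) : SAM p (pexp p Γ) H ⊥ = SA p H ⊥ := by
  ext x
  constructor
  · exact fun h => h.1
  · intro h
    exact ⟨h, pp_reg x (sa_bot h h.1 (self_cent x))⟩

/-- The operators agree on the classes of defect zero. -/
theorem kone_tw [Fact p.Prime] (hT : ∀ g ∈ G, ((g, 1) : Γ × Ex G) ∈ T) {J : Subgroup Γ}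
    {z : Γ → F} (hz : z ∈ (VT T (G ⊓ J : Subgroup Γ) J : Submodule F (Γ → F))) (c : F) :
    gM T (pexp p Γ) z (SAM p (pexp p Γ) (G ⊓ J) ⊥) J c = gT T z (SA p (G ⊓ J) ⊥) J c := by
  unfold gM gT
  rw [sam_bot]
  have h := Pool.Agent.Y85.NV.gen_eq (T := KM (pexp p Γ) z (SA p (G ⊓ J) ⊥))
    (T' := Kop z (SA p (G ⊓ J) ⊥)) (V := VT (F := F) T (SA p (G ⊓ J) ⊥) J) ?_ ?_ c
  · rw [h]
  · intro v hv
    funext x
    rw [km_apply, kop_apply]
    by_cases hx : x ∈ SA p (G ⊓ J) ⊥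
    · rw [if_pos hx, if_pos hx]
      refine finsum_congr fun g => ?_
      by_cases hg : g ∈ G ⊓ J
      · congr 1
        have hgx : g * x ∈ G ⊓ J := (G ⊓ J).mul_mem hg hx.1
        by_cases h1 : g * x ∈ SA p (G ⊓ J) ⊥
        · have h2 : (g * x) ^ pexp p Γ = g * x :=
            pp_reg _ (sa_bot h1 h1.1 (self_cent (g * x)))
          rw [h2]
        · rw [hv.1 _ h1]
          by_cases h2 : (g * x) ^ pexp p Γ ∈ SA p (G ⊓ J) ⊥
          · exfalso
            apply h1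
            have h3 : g * x ∈ Subgroup.centralizer {(g * x) ^ pexp p Γ} := by
              rw [Subgroup.mem_centralizer_iff]
              intro y hy
              rw [Set.mem_singleton_iff.mp hy]
              exact ((Commute.refl (g * x)).pow_left _).eq
            have h4 := sa_bot (p := p) (x := (g * x) ^ pexp p Γ) h2 hgx h3
            have h5 : (g * x) ^ pexp p Γ = g * x := pp_reg _ h4
            rwa [h5] at h2
          · rw [hv.1 _ h2]
      · rw [hz.1 g hg, zero_mul, zero_mul]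
    · rw [if_neg hx, if_neg hx]
  · intro v hv
    have hmem : ∀ x, x ∈ SA p (G ⊓ J) ⊥ ↔ x ∈ G ⊓ J ∧ Pool.Agent.Y85.NV.SYL p (G ⊓ J) x ⊥ := by
      intro x
      have h := sa_iffT (p := p) (G := G) (J := J) (R := ⊥) bot_le IsPGroup.of_bot (x := x)
      rw [normalizer_bot, inf_top_eq] at h
      exact h
    refine kop_tw hT hz (fun x hx => hx.1.1) (fun x hx => hx.1) ?_ hv
    intro t _ hj x hx
    rw [hmem] at hx ⊢
    refine ⟨(G ⊓ J).pow_mem ((conjN hj x).2 hx.1) _, ?_⟩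
    have h1 := SYL_tw hx.2 hx.1.1 t hj
    have h2 : Pool.Agent.Y85.NV.cj t.1 (⊥ : Subgroup Γ) = ⊥ := by
      rw [← mem_norm_iff, normalizer_bot]
      trivial
    rwa [h2] at h1

/-- the weight function -/
def wM2 (p : ℕ) (T : Subgroup (Γ × Ex G)) (z : Γ → F) (c : F) (R J : Subgroup Γ) : ℤ :=
  (mT T J : ℤ) * gM T (pexp p Γ) (cut (cut z (G ⊓ J)) (Subgroup.centralizer (R : Set Γ)))
    (SAM p (pexp p Γ) (G ⊓ J) R) J c

theorem filt_zM [Fact p.Prime] [IsAlgClosed F] [CharP F p]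
    (hT : ∀ g ∈ G, ((g, 1) : Γ × Ex G) ∈ T) {z : Γ → F}
    (hz : z ∈ (VT T G ⊤ : Submodule F (Γ → F))) (c : F) (J : Subgroup Γ) :
    (mT T J : ℤ) * gM T (pexp p Γ) (cut z (G ⊓ J)) (SP p (G ⊓ J)) J c =
      ∑ᶠ R : Subgroup Γ, (if IsPGroup p R ∧ R ≤ G ⊓ J then
        wM2 p T z c R (J ⊓ Subgroup.normalizer (R : Set Γ)) else 0) := by
  have : Fintype (Subgroup Γ) := Fintype.ofFinite _
  have h2 := filtM (m := pexp p Γ) Pool.Agent.Y487.NV.la (p := p) hT (cut_VT hz J) c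
  rw [← Nat.cast_mul]
  have h3 : gM T (pexp p Γ) (cut z (G ⊓ J)) (SP p (G ⊓ J)) J c =
      gM T (pexp p Γ) (cut z (G ⊓ J)) {x | x ∈ G ⊓ J ∧ x ^ pexp p Γ = x} J c := rfl
  rw [h3, h2, finsum_eq_sum_of_fintype, finsum_eq_sum_of_fintype, Nat.cast_sum]
  refine Finset.sum_congr rfl fun R _ => ?_
  by_cases hR : IsPGroup p R ∧ R ≤ G ⊓ J
  · rw [if_pos hR, if_pos hR, Nat.cast_mul, cut_cutG]
    rfl
  · rw [if_neg hR, if_neg hR, Nat.cast_zero]

theorem FB_cut (J : Subgroup Γ) (z : Γ → F) (c : F)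
    (t : Γ × Ex G) : FB G J (cut z (G ⊓ J)) c t = FB G J z c t := by
  have e1 : (fun x : ↥(G ⊓ J) => cut z (G ⊓ J) x) = fun x : ↥(G ⊓ J) => z x := by
    funext x
    unfold cut
    rw [if_pos x.2]
  unfold FB
  rw [e1]

theorem wM2_bot [Fact p.Prime] [IsAlgClosed F] (hT : ∀ g ∈ G, ((g, 1) : Γ × Ex G) ∈ T) {z : Γ → F}
    (hz : z ∈ (VT T G ⊤ : Submodule F (Γ → F))) (c : F) (J : Subgroup Γ) :
    wM2 p T z c ⊥ J = wT p T z c ⊥ J := by
  unfold wM2 wT
  have e1 : ∀ y : Γ, y ∈ Subgroup.centralizer ((⊥ : Subgroup Γ) : Set Γ) := by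
    intro y
    rw [Subgroup.mem_centralizer_iff]
    intro w hw
    rw [Subgroup.mem_bot.mp hw, one_mul, mul_one]
  have e2 : cut (cut z (G ⊓ J)) (Subgroup.centralizer ((⊥ : Subgroup Γ) : Set Γ)) =
      cut z (G ⊓ J) := by
    funext x
    unfold cut
    rw [if_pos (e1 x)]
  rw [e2, kone_tw hT (cut_VT hz J) c]

/-- **The sums of the numbers of fixed characters and of fixed irreducible traces agree.** -/
theorem kl_sum [Fact p.Prime] [IsAlgClosed F] [CharP F p]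
    (hT : ∀ g ∈ G, ((g, 1) : Γ × Ex G) ∈ T) (hB : ∀ t ∈ T, OK p G t.2)
    (red : integralClosure ℤ ℂ →+* F) {z : Γ → F}
    (hz : z ∈ (VT T G ⊤ : Submodule F (Γ → F))) (c : F) [Fintype (CH p G)] :
    ∑ σ : CH p G, (-1 : ℤ) ^ σ.1.ncard *
      ((∑ᶠ t : TJ T (chainStabilizer σ.1), FX red G (chainStabilizer σ.1) z c t.1 : ℕ) : ℤ) =
    ∑ σ : CH p G, (-1 : ℤ) ^ σ.1.ncard *
      ((∑ᶠ t : TJ T (chainStabilizer σ.1), FB G (chainStabilizer σ.1) z c t.1 : ℕ) : ℤ) := by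
  rw [sumT hT red hz c]
  have h1 := chain_botG (p := p) (G := G) (wM2 p T z c)
    (fun J => (mT T J : ℤ) * gM T (pexp p Γ) (cut z (G ⊓ J)) (SP p (G ⊓ J)) J c)
    (fun J => filt_zM hT hz c J)
  have h2 : ∀ σ : CH p G, wM2 p T z c ⊥ (chainStabilizer σ.1) =
      wT p T z c ⊥ (chainStabilizer σ.1) := fun σ => wM2_bot hT hz c _
  simp only [h2] at h1
  rw [← h1]
  refine Finset.sum_congr rfl fun σ _ => ?_
  congr 1
  rw [← Nat.cast_mul, burnB hB hT (cut_VT hz _) c]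
  congr 1
  exact finsum_congr fun t => FB_cut _ z c t.1

end Pool.Agent.R663.GB
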