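import Pool.Agent.R663.GB.EqB
import Pool.Agent.R663.GA.EqL
import Pool.Agent.Y63.NV.Infl
import Pool.Agent.Y624.NV.Trn

/-!
# Stable weights: sums over classes of chains
-/

set_option autoImplicit false
set_option linter.unusedSectionVars false

open scoped Classical Pointwise

noncomputable section

namespace Pool.Agent.R663.GB

open Pool.Agent.Y63.AWC (IsIrreducibleCharacter irr_comp)
open Pool.Agent.Y63.NV
open Pool.Agent.Y63.KR
open Pool.Agent.Y286.NV (centralValue_comp irr_class)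
open Pool.Agent.R663.KRB
open Pool.Agent.R663.GA
open Pool.Agent.Y624.NV (isWt_iff)

section defs

/-- The number of the irreducible characters `w` of `p`-defect zero of `(G ∩ K)/Q`, as characters of
`G ∩ K` (`Q` is normal in `G ∩ K`), with `bl(w)^G = B` and stable under `(eG, τ)`. -/
def dzSt (p : ℕ) {F : Type} [Field F] (red : integralClosure ℤ ℂ →+* F) {E : Type} [Group E]
    (G K Q : Subgroup E) (B : (G → F) → F) (e : E) (τ : ℂ ≃+* ℂ) : ℕ :=
  Nat.card {w : ↥(G ⊓ K) → ℂ // IsWt p (Q.subgroupOf (G ⊓ K)) w ∧ Induces red G K B w ∧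
    StableUnder G K e τ w}

/-- The `p`-subgroups of `H`, up to conjugation by the elements of `H`. -/
def pSub (p : ℕ) {E : Type} [Group E] (H : Subgroup E) :
    Setoid {Q : Subgroup E // IsPGroup p Q ∧ Q ≤ H} where
  r Q R := ∃ h ∈ H, R.1 = conjSub h Q.1
  iseqv :=
    { refl := fun Q => ⟨1, H.one_mem, (conjSub_one Q.1).symm⟩
      symm := by
        rintro Q R ⟨h, hh, hR⟩
        exact ⟨h⁻¹, H.inv_mem hh, by rw [hR, conjSub_inv_conjSub]⟩
      trans := by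
        rintro Q R S ⟨h, hh, hR⟩ ⟨k, hk, hS⟩
        exact ⟨k * h, H.mul_mem hk hh, by rw [hS, hR, conjSub_mul]⟩ }

/-- The number of the `G ∩ J`-classes of weights `(Q, w)` of `G ∩ J` with `bl(w)^G = B` which are
stable under `(eG, τ)`: the sum, over representatives `Q` of the `G ∩ J`-classes of `p`-subgroups
of `G ∩ J`, of the numbers of the `w` for `Q`. -/
def numWt (p : ℕ) {F : Type} [Field F] (red : integralClosure ℤ ℂ →+* F) {E : Type} [Group E]
    (G J : Subgroup E) (B : (G → F) → F) (e : E) (τ : ℂ ≃+* ℂ) : ℕ :=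
  ∑ᶠ c : Quotient (pSub p (G ⊓ J)),
    dzSt p red G (J ⊓ Subgroup.normalizer (c.out.1 : Set E)) c.out.1 B e τ

end defs

variable {F : Type} [Field F] {Γ : Type} [Group Γ] [Finite Γ] {G : Subgroup Γ} {p : ℕ}

theorem inv_conj2 (red : integralClosure ℤ ℂ →+* F) (hGn : G.Normal) (B : (G → F) → F) {g : Γ}
    (hg : g ∈ G) (J : Subgroup Γ) (P' : (↥(G ⊓ conjSub g J) → ℂ) → Prop)
    (P : (↥(G ⊓ J) → ℂ) → Prop)
    (hP : ∀ ψ : ↥(G ⊓ conjSub g J) → ℂ, P' ψ ↔ P (fun x => ψ (cI hGn g J x))) :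
    Nat.card {ψ : ↥(G ⊓ conjSub g J) → ℂ // IsIrreducibleCharacter ψ ∧
      Induces red G (conjSub g J) B ψ ∧ P' ψ} =
    Nat.card {ψ : ↥(G ⊓ J) → ℂ // IsIrreducibleCharacter ψ ∧ Induces red G J B ψ ∧ P ψ} := by
  have hval : ∀ ψ : ↥(G ⊓ conjSub g J) → ℂ, IsIrreducibleCharacter ψ → ∀ f : G → F,
      IsClassFun f → centralValue red (fun x => ψ (cI hGn g J x))
        (fun x : ↥(G ⊓ J) => f ⟨x, x.2.1⟩) = centralValue red ψ (fun x => f ⟨x, x.2.1⟩) := by
    intro ψ hψ f hf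
    have h1 := centralValue_comp red (cI hGn g J) ψ (irr_class hψ)
      (fun x => f ⟨x, x.2.1⟩) (fun a x => hf ⟨a, a.2.1⟩ ⟨x, x.2.1⟩)
    rw [← h1]
    congr 1
    funext x
    have h2 := hf ⟨g, hg⟩ ⟨x, x.2.1⟩
    rw [← h2]
    rfl
  have hInd : ∀ ψ : ↥(G ⊓ conjSub g J) → ℂ, IsIrreducibleCharacter ψ →
      (Induces red G (conjSub g J) B ψ ↔ Induces red G J B (fun x => ψ (cI hGn g J x))) := by
    intro ψ hψ
    unfold Induces
    refine forall_congr' fun f => forall_congr' fun hf => ?_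
    rw [hval ψ hψ f hf]
  have hback : ∀ χ : ↥(G ⊓ J) → ℂ,
      (fun x => (fun x => χ ((cI hGn g J).symm x)) (cI hGn g J x)) = χ := by
    intro χ
    funext x
    show χ ((cI hGn g J).symm (cI hGn g J x)) = χ x
    rw [MulEquiv.symm_apply_apply]
  refine Nat.card_congr
    { toFun := fun ψ => ⟨fun x => ψ.1 (cI hGn g J x), irr_comp (cI hGn g J) ψ.2.1,
        (hInd ψ.1 ψ.2.1).1 ψ.2.2.1, (hP ψ.1).1 ψ.2.2.2⟩
      invFun := fun χ => ⟨fun x => χ.1 ((cI hGn g J).symm x), irr_comp (cI hGn g J).symm χ.2.1,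
        ?_, ?_⟩
      left_inv := ?_
      right_inv := ?_ }
  · rw [hInd _ (irr_comp (cI hGn g J).symm χ.2.1), hback]
    exact χ.2.2.1
  · rw [hP, hback]
    exact χ.2.2.2
  · intro ψ
    apply Subtype.ext
    funext x
    show ψ.1 (cI hGn g J ((cI hGn g J).symm x)) = ψ.1 x
    rw [MulEquiv.apply_symm_apply]
  · intro χ
    apply Subtype.ext
    funext x
    show χ.1 ((cI hGn g J).symm (cI hGn g J x)) = χ.1 x
    rw [MulEquiv.symm_apply_apply]

theorem dz_eq (red : integralClosure ℤ ℂ →+* F) (K Q : Subgroup Γ) (B : (G → F) → F) (e : Γ)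
    (τ : ℂ ≃+* ℂ) : dzSt p red G K Q B e τ =
    Nat.card {w : ↥(G ⊓ K) → ℂ // IsIrreducibleCharacter w ∧ Induces red G K B w ∧
      (IsWt p (Q.subgroupOf (G ⊓ K)) w ∧ StableUnder G K e τ w)} := by
  unfold dzSt
  refine Nat.card_congr (Equiv.subtypeEquivRight fun w => ?_)
  constructor
  · rintro ⟨h1, h2, h3⟩
    exact ⟨h1.irr, h2, h1, h3⟩
  · rintro ⟨_, h2, h1, h3⟩
    exact ⟨h1, h2, h3⟩

theorem dz_conj (red : integralClosure ℤ ℂ →+* F) (hGn : G.Normal) (B : (G → F) → F) (e : Γ)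
    (τ : ℂ ≃+* ℂ) {g : Γ} (hg : g ∈ G) (K Q : Subgroup Γ) :
    dzSt p red G (conjSub g K) (conjSub g Q) B e τ = dzSt p red G K Q B e τ := by
  rw [dz_eq, dz_eq]
  refine inv_conj2 red hGn B hg K _ _ fun ψ => ?_
  refine and_congr ?_ (stable_conj hGn hg K e τ ψ)
  refine (isWt_iff (cI hGn g K) (fun x => ?_)).symm
  rw [Subgroup.mem_subgroupOf, Subgroup.mem_subgroupOf, mem_conjSub]
  have h1 : g⁻¹ * ((cI hGn g K x : ↥(G ⊓ conjSub g K)) : Γ) * g = x := by
    show g⁻¹ * (g * x * g⁻¹) * g = x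
    group
  rw [h1]

theorem norm_conj (g : Γ) (Q : Subgroup Γ) :
    Subgroup.normalizer ((conjSub g Q : Subgroup Γ) : Set Γ) =
      conjSub g (Subgroup.normalizer (Q : Set Γ)) := by
  ext x
  rw [mem_conjSub, ← conjSub_eq_iff, ← conjSub_eq_iff, ← conjSub_mul, mul_assoc g⁻¹, conjSub_mul,
    conjSub_mul]
  constructor
  · intro h
    rw [conjSub_mul x g, h, conjSub_inv_conjSub]
  · intro h
    have h2 := congrArg (conjSub g) h
    rw [conjSub_conjSub_inv, conjSub_mul] at h2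
    exact h2

theorem inf_conj (g : Γ) (J Q : Subgroup Γ) :
    conjSub g J ⊓ Subgroup.normalizer ((conjSub g Q : Subgroup Γ) : Set Γ) =
      conjSub g (J ⊓ Subgroup.normalizer (Q : Set Γ)) := by
  rw [norm_conj]
  ext x
  rw [Subgroup.mem_inf, mem_conjSub, mem_conjSub, mem_conjSub, Subgroup.mem_inf]

/-- the weight function -/
def wD (p : ℕ) (red : integralClosure ℤ ℂ →+* F) (B : (G → F) → F) (e : Γ) (τ : ℂ ≃+* ℂ)
    (R K : Subgroup Γ) : ℤ := (Nat.card ↥(G ⊓ K) : ℤ) * (dzSt p red G K R B e τ : ℤ)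

theorem wD_conj (red : integralClosure ℤ ℂ →+* F) (hGn : G.Normal) (B : (G → F) → F) (e : Γ)
    (τ : ℂ ≃+* ℂ) {g : Γ} (hg : g ∈ G) (K Q : Subgroup Γ) :
    wD p red B e τ (conjSub g Q) (conjSub g K) = wD p red B e τ Q K := by
  unfold wD
  rw [dz_conj red hGn B e τ hg]
  have h1 : Nat.card ↥(G ⊓ K) = Nat.card ↥(G ⊓ conjSub g K) :=
    Nat.card_congr (cI hGn g K).toEquiv
  rw [h1]

/-- the terms -/
def tW (p : ℕ) (red : integralClosure ℤ ℂ →+* F) (B : (G → F) → F) (e : Γ) (τ : ℂ ≃+* ℂ)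
    (J Q : Subgroup Γ) : ℤ :=
  if IsPGroup p Q ∧ Q ≤ G ⊓ J then
    wD p red B e τ Q (J ⊓ Subgroup.normalizer (Q : Set Γ)) else 0

theorem conj_G (hGn : G.Normal) (g : Γ) : conjSub g G = G := by
  rw [conjSub_eq_iff, Subgroup.mem_normalizer_iff]
  intro h
  constructor
  · intro hh
    exact hGn.conj_mem h hh g
  · intro hh
    have h1 := hGn.conj_mem _ hh g⁻¹
    have e : g⁻¹ * (g * h * g⁻¹) * g⁻¹⁻¹ = h := by group
    rwa [e] at h1

theorem cond_conj (hGn : G.Normal) (g : Γ) (J Q : Subgroup Γ) :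
    (IsPGroup p (conjSub g Q) ∧ conjSub g Q ≤ G ⊓ conjSub g J) ↔ (IsPGroup p Q ∧ Q ≤ G ⊓ J) := by
  have key : ∀ (g : Γ) (J Q : Subgroup Γ), (IsPGroup p Q ∧ Q ≤ G ⊓ J) →
      (IsPGroup p (conjSub g Q) ∧ conjSub g Q ≤ G ⊓ conjSub g J) := by
    rintro g J Q ⟨h1, h2⟩
    refine ⟨h1.map _, le_inf ?_ (conjSub_le (h2.trans inf_le_right))⟩
    have h3 := conjSub_le (g := g) (h2.trans inf_le_left)
    rwa [conj_G hGn] at h3
  refine ⟨fun h => ?_, key g J Q⟩
  have h1 := key g⁻¹ _ _ h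
  rwa [conjSub_inv_conjSub, conjSub_inv_conjSub] at h1

theorem tW_conj (red : integralClosure ℤ ℂ →+* F) (hGn : G.Normal) (B : (G → F) → F) (e : Γ)
    (τ : ℂ ≃+* ℂ) {g : Γ} (hg : g ∈ G) (J Q : Subgroup Γ) :
    tW p red B e τ (conjSub g J) (conjSub g Q) = tW p red B e τ J Q := by
  unfold tW
  rw [inf_conj, wD_conj red hGn B e τ hg]
  simp only [cond_conj hGn g J Q]

/-- the number of classes as a weighted sum -/
theorem numWt_mul (red : integralClosure ℤ ℂ →+* F) (hGn : G.Normal) (B : (G → F) → F) (e : Γ)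
    (τ : ℂ ≃+* ℂ) (J : Subgroup Γ) :
    (Nat.card ↥(G ⊓ J) : ℤ) * (numWt p red G J B e τ : ℤ) =
      ∑ᶠ Q : Subgroup Γ, tW p red B e τ J Q := by
  have : Fintype (Subgroup Γ) := Fintype.ofFinite _
  have : Fintype {Q : Subgroup Γ // IsPGroup p Q ∧ Q ≤ G ⊓ J} := Fintype.ofFinite _
  let _ : MulAction ↥(G ⊓ J) {Q : Subgroup Γ // IsPGroup p Q ∧ Q ≤ G ⊓ J} :=
    { smul := fun g Q => ⟨conjSub (g : Γ) Q.1, Q.2.1.map _, by
        have h1 := conjSub_le (g := (g : Γ)) Q.2.2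
        have h2 : conjSub (g : Γ) (G ⊓ J) = G ⊓ J := by
          rw [conjSub_eq_iff]
          exact Subgroup.le_normalizer g.2
        rwa [h2] at h1⟩
      one_smul := fun Q => Subtype.ext (conjSub_one Q.1)
      mul_smul := fun g h Q => Subtype.ext (conjSub_mul (g : Γ) (h : Γ) Q.1) }
  have hsm : ∀ (g : ↥(G ⊓ J)) (Q : {Q : Subgroup Γ // IsPGroup p Q ∧ Q ≤ G ⊓ J}),
      (g • Q).1 = conjSub (g : Γ) Q.1 := fun _ _ => rfl
  have hJ : ∀ g ∈ G ⊓ J, conjSub g J = J := fun g hg => by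
    rw [conjSub_eq_iff]
    exact Subgroup.le_normalizer hg.2
  have h := orbit_sum (G := ↥(G ⊓ J)) (pSub p (G ⊓ J)) (by
    intro Q R
    change (∃ h ∈ G ⊓ J, R.1 = conjSub h Q.1) ↔ _
    constructor
    · rintro ⟨g, hg, h⟩
      exact ⟨⟨g, hg⟩, Subtype.ext h.symm⟩
    · rintro ⟨g, h⟩
      exact ⟨g, g.2, (congrArg Subtype.val h).symm⟩)
    (fun Q => (dzSt p red G (J ⊓ Subgroup.normalizer (Q.1 : Set Γ)) Q.1 B e τ : ℤ)) (by
      rintro Q R ⟨g, hg, h⟩
      show (dzSt p red G (J ⊓ Subgroup.normalizer (Q.1 : Set Γ)) Q.1 B e τ : ℤ) =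
        (dzSt p red G (J ⊓ Subgroup.normalizer (R.1 : Set Γ)) R.1 B e τ : ℤ)
      rw [h, ← dz_conj red hGn B e τ hg.1, ← inf_conj, hJ g hg])
  have hfin : Finite (Quotient (pSub p (G ⊓ J))) := inferInstance
  have : Fintype (Quotient (pSub p (G ⊓ J))) := Fintype.ofFinite _
  have e1 : (numWt p red G J B e τ : ℤ) = ∑ᶠ c : Quotient (pSub p (G ⊓ J)),
      (dzSt p red G (J ⊓ Subgroup.normalizer (c.out.1 : Set Γ)) c.out.1 B e τ : ℤ) := by
    unfold numWt
    rw [finsum_eq_sum_of_fintype, finsum_eq_sum_of_fintype, Nat.cast_sum]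
  rw [e1, h, finsum_eq_sum_of_fintype]
  have h2 : ∑ Q : Subgroup Γ, tW p red B e τ J Q =
      ∑ Q ∈ Finset.univ.filter (fun Q : Subgroup Γ => IsPGroup p Q ∧ Q ≤ G ⊓ J),
        wD p red B e τ Q (J ⊓ Subgroup.normalizer (Q : Set Γ)) := by
    rw [Finset.sum_filter]
    rfl
  rw [h2, Finset.sum_subtype (p := fun Q : Subgroup Γ => IsPGroup p Q ∧ Q ≤ G ⊓ J) _
    (fun Q => by simp) (fun Q => wD p red B e τ Q (J ⊓ Subgroup.normalizer (Q : Set Γ)))]
  refine Finset.sum_congr rfl fun Q _ => ?_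
  unfold wD
  congr 1
  have key : ∀ g : ↥(G ⊓ J), g ∈ MulAction.stabilizer ↥(G ⊓ J) Q ↔
      (g : Γ) ∈ Subgroup.normalizer (Q.1 : Set Γ) := by
    intro g
    rw [MulAction.mem_stabilizer_iff, Subtype.ext_iff, hsm, conjSub_eq_iff]
  rw [Nat.cast_inj]
  exact Nat.card_congr
    { toFun := fun g => ⟨g.1, g.1.2.1, g.1.2.2, (key g.1).1 g.2⟩
      invFun := fun g => ⟨⟨g.1, g.2.1, g.2.2.1⟩, (key ⟨g.1, g.2.1, g.2.2.1⟩).2 g.2.2.2⟩
      left_inv := fun _ => rfl
      right_inv := fun _ => rfl }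

/-- conjugation of subgroups as a permutation -/
def cS (g : Γ) : Subgroup Γ ≃ Subgroup Γ where
  toFun := conjSub g
  invFun := conjSub g⁻¹
  left_inv := conjSub_inv_conjSub g
  right_inv := conjSub_conjSub_inv g

theorem numWt_conj (red : integralClosure ℤ ℂ →+* F) (hGn : G.Normal) (B : (G → F) → F) (e : Γ)
    (τ : ℂ ≃+* ℂ) {g : Γ} (hg : g ∈ G) (J : Subgroup Γ) :
    numWt p red G (conjSub g J) B e τ = numWt p red G J B e τ := by
  have h1 := numWt_mul (p := p) red hGn B e τ J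
  have h2 := numWt_mul (p := p) red hGn B e τ (conjSub g J)
  rw [← finsum_comp_equiv (cS g)] at h2
  have h3 : ∀ Q : Subgroup Γ, tW p red B e τ (conjSub g J) (cS g Q) = tW p red B e τ J Q :=
    fun Q => tW_conj red hGn B e τ hg J Q
  simp only [h3] at h2
  have h4 : Nat.card ↥(G ⊓ J) = Nat.card ↥(G ⊓ conjSub g J) :=
    Nat.card_congr (cI hGn g J).toEquiv
  rw [← h1, h4] at h2
  have hpos : (Nat.card ↥(G ⊓ conjSub g J) : ℤ) ≠ 0 := by exact_mod_cast Nat.card_pos.ne'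
  exact_mod_cast mul_left_cancel₀ hpos h2

/-- no defect zero characters for the stabilisers of nonempty chains -/
theorem dz_zero [Fact p.Prime] (red : integralClosure ℤ ℂ →+* F) (B : (G → F) → F) (e : Γ)
    (τ : ℂ ≃+* ℂ) {σ : Set (Subgroup Γ)} (hσ : IsPChain p σ) (hσG : ∀ P ∈ σ, P ≤ G)
    (hne : σ.Nonempty) : dzSt p red G (chainStabilizer σ) ⊥ B e τ = 0 := by
  obtain ⟨P, hP, hmin⟩ := exists_least hσ.chain hne
  have hle : P ≤ G ⊓ chainStabilizer σ := by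
    refine le_inf (hσG P hP) ?_
    intro x hx
    rw [mem_chainStabilizer]
    intro Q hQ
    rw [conjSub_eq_iff]
    exact Subgroup.le_normalizer (hmin Q hQ hx)
  have hn : (P.subgroupOf (G ⊓ chainStabilizer σ)).Normal := by
    refine ⟨fun n hn g => ?_⟩
    rw [Subgroup.mem_subgroupOf] at hn ⊢
    have h1 := mem_chainStabilizer.1 g.2.2 P hP
    have h2 := conj_mem_conjSub (g := (g : Γ)) hn
    rwa [h1] at h2
  have hb : (⊥ : Subgroup Γ).subgroupOf (G ⊓ chainStabilizer σ) = ⊥ := by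
    ext x
    rw [Subgroup.mem_subgroupOf, Subgroup.mem_bot, Subgroup.mem_bot, OneMemClass.coe_eq_one]
  unfold dzSt
  rw [hb]
  have hlt : (⊥ : Subgroup ↥(G ⊓ chainStabilizer σ)) < P.subgroupOf (G ⊓ chainStabilizer σ) := by
    rw [bot_lt_iff_ne_bot]
    intro h
    apply hσ.ne_bot P hP
    rw [Subgroup.subgroupOf_eq_bot] at h
    exact h.eq_bot_of_le hle
  have : IsEmpty {w : ↥(G ⊓ chainStabilizer σ) → ℂ // IsWt p ⊥ w ∧
      Induces red G (chainStabilizer σ) B w ∧ StableUnder G (chainStabilizer σ) e τ w} :=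
    ⟨fun w => wtn p _ ⊥ (P.subgroupOf (G ⊓ chainStabilizer σ)) w.1 inferInstance hn
      ((hσ.isPGroup P hP).comap_subtype) hlt w.2.1⟩
  exact Nat.card_of_isEmpty

theorem stab_empty : chainStabilizer (∅ : Set (Subgroup Γ)) = ⊤ := by
  unfold chainStabilizer
  simp

/-- a sum over chains with only one nonzero term -/
theorem sum_single (f : Subgroup Γ → ℤ) [Fintype (CH p G)]
    (h : ∀ σ : CH p G, σ.1.Nonempty → f (chainStabilizer σ.1) = 0) :
    ∑ σ : CH p G, (-1) ^ σ.1.ncard * f (chainStabilizer σ.1) = f ⊤ := by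
  rw [Finset.sum_eq_single (⟨∅, ⟨Set.subsingleton_empty.isChain, fun _ h => absurd h (by simp),
    fun _ h => absurd h (by simp)⟩, fun _ h => absurd h (by simp)⟩ : CH p G)]
  · rw [Set.ncard_empty, pow_zero, one_mul, stab_empty]
  · intro σ _ hσ
    have hne : σ.1.Nonempty := by
      rw [Set.nonempty_iff_ne_empty]
      intro h0
      exact hσ (Subtype.ext h0)
    rw [h σ hne, mul_zero]
  · intro h0
    exact absurd (Finset.mem_univ _) h0

/-- **The alternating sum of the numbers of stable weights.** -/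
theorem rel_wt [Fact p.Prime] (red : integralClosure ℤ ℂ →+* F) (hGn : G.Normal)
    (B : (G → F) → F) (e : Γ) (τ : ℂ ≃+* ℂ) :
    relSum p G (fun J => (numWt p red G J B e τ : ℤ)) = (dzSt p red G ⊤ ⊥ B e τ : ℤ) := by
  have : Fintype (CH p G) := Fintype.ofFinite _
  have hpos : (Nat.card G : ℤ) ≠ 0 := by exact_mod_cast Nat.card_pos.ne'
  refine mul_left_cancel₀ hpos ?_
  rw [rel_mul _ (fun g hg J => by rw [numWt_conj red hGn B e τ hg]) hGn]
  have h1 := chain_botG (p := p) (G := G) (wD p red B e τ)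
    (fun J => (Nat.card ↥(G ⊓ J) : ℤ) * (numWt p red G J B e τ : ℤ))
    (fun J => numWt_mul red hGn B e τ J)
  rw [h1, sum_single (fun J => wD p red B e τ ⊥ J)]
  · unfold wD
    rw [inf_top_eq]
  · intro σ hne
    show wD p red B e τ ⊥ (chainStabilizer σ.1) = 0
    unfold wD
    rw [dz_zero red B e τ σ.2.1 σ.2.2 hne, Nat.cast_zero, mul_zero]

/-- **The Galois-equivariant form of the weight conjecture and alternating sums.** -/
theorem awc_formula [hG : G.Normal] [Fact p.Prime] [IsAlgClosed F] [CharP F p]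
    (red : integralClosure ℤ ℂ →+* F)
    (B : (G → F) → F) (e : Γ) (τ : ℂ ≃+* ℂ) (i : ℕ)
    (h : ∀ z : ℂ, z ^ (Nat.card G / p ^ (Nat.card G).factorization p) = 1 → τ z = z ^ p ^ i)
    (hyp : ∀ σ : Set (Subgroup Γ), IsPChain p σ → (∀ P ∈ σ, P ≤ G) → σ.Nonempty →
      numB G (chainStabilizer σ) B e (p ^ i) = numWt p red G (chainStabilizer σ) B e τ) :
    (numB G ⊤ B e (p ^ i) : ℤ) - (numWt p red G ⊤ B e τ : ℤ) =
      relSum p G (fun J => (numInv red G J B e τ : ℤ)) - (dzSt p red G ⊤ ⊥ B e τ : ℤ) := by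
  have : Fintype (CH p G) := Fintype.ofFinite _
  have hpos : (Nat.card G : ℤ) ≠ 0 := by exact_mod_cast Nat.card_pos.ne'
  rw [rel_kl red B e τ i h, ← rel_wt red hG B e τ, ← relSum_sub]
  refine mul_left_cancel₀ hpos ?_
  rw [rel_mul _ (fun g hg J => by rw [numWt_conj red hG B e τ hg, numB_conj B e (p ^ i) hg]) hG,
    sum_single (fun J => (Nat.card ↥(G ⊓ J) : ℤ) *
      ((numB G J B e (p ^ i) : ℤ) - (numWt p red G J B e τ : ℤ)))]
  · rw [inf_top_eq]
  · intro σ hne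
    show (Nat.card ↥(G ⊓ chainStabilizer σ.1) : ℤ) *
      ((numB G (chainStabilizer σ.1) B e (p ^ i) : ℤ) -
        (numWt p red G (chainStabilizer σ.1) B e τ : ℤ)) = 0
    rw [hyp σ.1 σ.2.1 σ.2.2 hne, sub_self, mul_zero]

end Pool.Agent.R663.GB
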